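import Pool.Agent.Work.MP_d94bda_kk.InterfaceK
/-!
# MP_d94bda_al, block KAC: the maximal condition for pp-definable subgroups of `G^k`
-/

open scoped BigOperators

namespace Pool.ZgCB.KK
universe u

section
variable {R : Type u} [Ring R] {G : Type u} [AddCommGroup G] [Module R G]

/-- there is a chain of `n` strict steps below `φ` -/
def KAC_Ch (G : Type u) [AddCommGroup G] [Module R G] (n : ℕ) (φ : P1 R) : Prop :=
  ∃ θ : ℕ → P1 R, (∀ i < n, Cl G (θ i) (θ (i + 1)) ∧ Opn G (θ (i + 1)) (θ i)) ∧ Cl G (θ n) φ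

theorem KAC_zero (φ : P1 R) : KAC_Ch G 0 φ :=
  ⟨fun _ => φ, fun i hi => absurd hi (Nat.not_lt_zero i), fun _ h => h⟩

theorem KAC_lt {m n : ℕ} (hm : PLen (R := R) m G) {φ : P1 R} (h : KAC_Ch G n φ) : n < m := by
  obtain ⟨θ, hθ, -⟩ := h
  by_contra hcon
  exact hm θ (fun i hi => hθ i (lt_of_lt_of_le hi (not_lt.1 hcon)))

theorem KAC_mono {n : ℕ} {φ ψ : P1 R} (h : Cl G φ ψ) (hc : KAC_Ch G n φ) : KAC_Ch G n ψ := by
  obtain ⟨θ, hθ, h1⟩ := hc
  exact ⟨θ, hθ, fun a ha => h a (h1 a ha)⟩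

theorem KAC_succ {n : ℕ} {φ ψ : P1 R} (h : Cl G φ ψ) (ho : Opn G ψ φ) (hc : KAC_Ch G n φ) :
    KAC_Ch G (n + 1) ψ := by
  obtain ⟨θ, hθ, h1⟩ := hc
  refine ⟨fun i => if i ≤ n then θ i else ψ, fun i hi => ?_, ?_⟩
  · rcases Nat.lt_or_ge i n with hin | hin
    · have e1 : i ≤ n := hin.le
      have e2 : i + 1 ≤ n := hin
      simp only [e1, e2, if_true]
      exact hθ i hin
    · have e : i = n := by omega
      subst e
      have e2 : ¬ (i + 1 ≤ i) := by omega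
      simp only [le_refl, e2, if_true, if_false]
      refine ⟨fun a ha => h a (h1 a ha), ?_⟩
      obtain ⟨a, ha, hna⟩ := ho
      exact ⟨a, ha, fun hcon => hna (h1 a hcon)⟩
  · have e2 : ¬ (n + 1 ≤ n) := by omega
    simp only [e2, if_false]
    exact fun a ha => ha

/-- the rank of a formula -/
noncomputable def KAC_rk (G : Type u) [AddCommGroup G] [Module R G] (m : ℕ) (φ : P1 R) : ℕ := by
  classical
  exact Nat.findGreatest (fun n => KAC_Ch G n φ) m

theorem KAC_rk_spec (m : ℕ) (φ : P1 R) : KAC_Ch G (KAC_rk G m φ) φ := by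
  classical
  exact Nat.findGreatest_spec (P := fun n => KAC_Ch G n φ) (Nat.zero_le m) (KAC_zero φ)

theorem KAC_le_rk {m n : ℕ} (hm : PLen (R := R) m G) {φ : P1 R} (h : KAC_Ch G n φ) :
    n ≤ KAC_rk G m φ := by
  classical
  exact Nat.le_findGreatest (KAC_lt hm h).le h

theorem KAC_rk_le (m : ℕ) (φ : P1 R) : KAC_rk G m φ ≤ m := by
  classical
  exact Nat.findGreatest_le m

theorem KAC_rk_mono {m : ℕ} (hm : PLen (R := R) m G) {φ ψ : P1 R} (h : Cl G φ ψ) :
    KAC_rk G m φ ≤ KAC_rk G m ψ :=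
  KAC_le_rk hm (KAC_mono h (KAC_rk_spec m φ))

theorem KAC_rk_eq {m : ℕ} (hm : PLen (R := R) m G) {φ ψ : P1 R} (h : Cl G φ ψ)
    (he : KAC_rk G m ψ ≤ KAC_rk G m φ) : Cl G ψ φ := by
  by_contra hcon
  have h1 := KAC_le_rk hm (KAC_succ h (not_cl.1 hcon) (KAC_rk_spec m φ))
  omega

/-- the formula for the coordinate `j` of the solutions with zeros before `j` -/
theorem KAC_coord (k : ℕ) (θ : PP R (Fin k)) (j : Fin k) :
    ∃ φ : P1 R, ∀ (M : Type u) [AddCommGroup M] [Module R M] (a : M),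
      at1 φ a ↔ ∃ x : Fin k → M, θ.ev M x ∧ (∀ i, i < j → x i = 0) ∧ x j = a := by
  classical
  have h1 := Dfn.reidx (ι := Unit ⊕ Fin k) (Dfn.of (PP.over_top θ)) (fun i : Fin k => Sum.inr i)
  have h2 : Dfn (⊤ : Subring R) (fun M _ _ (x : Unit ⊕ Fin k → M) =>
      ∀ i : {i : Fin k // i < j}, (botF : P1 R).ev M (fun _ : Unit => x (Sum.inr i.1))) :=
    Dfn.all fun i => Dfn.reidx (ι := Unit ⊕ Fin k) (Dfn.of (PP.over_top (botF : P1 R)))
      (fun _ : Unit => Sum.inr i.1)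
  have h3 := Dfn.lin (ι := Unit ⊕ Fin k) (S := (⊤ : Subring R))
    (Sum.elim (fun _ => (1 : R)) (fun i => if i = j then (-1 : R) else 0))
    (fun _ => Subring.mem_top _)
  obtain ⟨φ, -, hφ⟩ := Dfn.ex (ι := Unit) (κ := Fin k) (h1.and (h2.and h3))
  refine ⟨φ, fun M _ _ a => ?_⟩
  have h4 := hφ M (fun _ => a)
  unfold at1
  rw [h4]
  refine exists_congr fun x => ?_
  refine and_congr Iff.rfl (and_congr ?_ ?_)
  · constructor
    · intro h i hi
      exact (at1_bot (x i)).1 (h ⟨i, hi⟩)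
    · intro h i
      exact (at1_bot (x i.1)).2 (h i.1 i.2)
  · simp only [Fintype.sum_sum_type, Sum.elim_inl, Sum.elim_inr, Finset.univ_unique,
      Finset.sum_singleton, one_smul, ite_smul, neg_smul, zero_smul, Finset.sum_ite_eq',
      Finset.mem_univ, if_true]
    rw [← sub_eq_add_neg, sub_eq_zero]
    exact eq_comm

theorem KAC_A (k : ℕ) (θ θ' : PP R (Fin k)) (hle : ∀ x, θ.ev G x → θ'.ev G x)
    (h : ∀ (j : Fin k) (a : G), (∃ x : Fin k → G, θ'.ev G x ∧ (∀ i, i < j → x i = 0) ∧ x j = a) →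
      ∃ x : Fin k → G, θ.ev G x ∧ (∀ i, i < j → x i = 0) ∧ x j = a) :
    ∀ x, θ'.ev G x → θ.ev G x := by
  intro x hx
  have key : ∀ n, n ≤ k → ∃ x' : Fin k → G, θ.ev G x' ∧ ∀ i : Fin k, i.1 < n → x i = x' i := by
    intro n
    induction n with
    | zero => exact fun _ => ⟨fun _ => 0, θ.ev_zero G, fun i hi => absurd hi (Nat.not_lt_zero _)⟩
    | succ n ih =>
      intro hn
      obtain ⟨x', hx', he⟩ := ih (by omega)
      let j : Fin k := ⟨n, hn⟩
      have hd : θ'.ev G (fun i => x i - x' i) := θ'.ev_sub hx (hle x' hx')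
      obtain ⟨x'', hx'', h0, hj⟩ := h j (x j - x' j)
        ⟨fun i => x i - x' i, hd, fun i hi => sub_eq_zero.2 (he i hi), rfl⟩
      refine ⟨fun i => x' i + x'' i, θ.ev_add hx' hx'', fun i hi => ?_⟩
      rcases Nat.lt_or_ge i.1 n with hin | hin
      · have h1 : x'' i = 0 := h0 i hin
        show x i = x' i + x'' i
        rw [h1, add_zero]
        exact he i hin
      · have e : i = j := Fin.ext (by show i.1 = n; omega)
        show x i = x' i + x'' i
        rw [e, hj]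
        abel
  obtain ⟨x', hx', he⟩ := key k le_rfl
  have e : x = x' := funext fun i => he i i.2
  rw [e]
  exact hx'

end

theorem p_KAC : Stmt_KAC.{u} := by
  intro R _ G _ _ hlen k F hF
  obtain ⟨m, hm⟩ := hlen
  choose co hco using (fun (θ : PP R (Fin k)) (j : Fin k) => KAC_coord k θ j)
  -- the rank of a formula in `k` variables
  let rk : PP R (Fin k) → ℕ := fun θ => ∑ j, KAC_rk G m (co θ j)
  have hbound : ∀ θ, rk θ ≤ k * m := by
    intro θ
    have h1 : rk θ ≤ ∑ _j : Fin k, m := Finset.sum_le_sum fun j _ => KAC_rk_le m _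
    simpa using h1
  -- the values of the rank on `F`
  have hex : ∃ γ ∈ F, ∀ γ' ∈ F, rk γ' ≤ rk γ := by
    classical
    have hfin : (rk '' F).Finite := (Set.finite_Iic (k * m)).subset (by
      rintro _ ⟨θ, -, rfl⟩
      exact hbound θ)
    obtain ⟨_, ⟨γ, hγ, rfl⟩, hmax⟩ := Set.exists_max_image (rk '' F) id hfin (hF.image rk)
    exact ⟨γ, hγ, fun γ' hγ' => hmax _ ⟨γ', hγ', rfl⟩⟩
  obtain ⟨γ, hγ, hmax⟩ := hex
  refine ⟨γ, hγ, fun γ' hγ' hle => ?_⟩
  have hcl : ∀ j, Cl G (co γ j) (co γ' j) := by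
    intro j a ha
    obtain ⟨x, hx, h0, hj⟩ := (hco γ j G a).1 ha
    exact (hco γ' j G a).2 ⟨x, hle x hx, h0, hj⟩
  have heq : ∀ j, KAC_rk G m (co γ' j) ≤ KAC_rk G m (co γ j) := by
    intro j
    by_contra hcon
    have h1 : rk γ < rk γ' := Finset.sum_lt_sum (fun j _ => KAC_rk_mono hm (hcl j))
      ⟨j, Finset.mem_univ j, not_le.1 hcon⟩
    have h2 := hmax γ' hγ'
    omega
  refine KAC_A k γ γ' hle (fun j a hx => ?_)
  exact (hco γ j G a).1 (KAC_rk_eq hm (hcl j) (heq j) a ((hco γ' j G a).2 hx))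

end Pool.ZgCB.KK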