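import Pool.Agent.Work.MP_d94bda_kk.InterfaceK
/-!
# Block KE1: transitivity on a simple step
-/

namespace Pool.ZgCB.KK
universe u

section
variable {R : Type u} [Ring R] {G : Type u} [AddCommGroup G] [Module R G]

/-- the formula `θ(w_0)` in the variables `Fin 1` -/
theorem KE1_one (θ : P1 R) (x : Fin 1 → G) :
    (θ.subst (fun (_ : Unit) (_ : Fin 1) => (1 : R))).ev G x ↔ at1 θ (x 0) := by
  rw [PP.ev_subst]
  simp only [one_smul, Finset.univ_unique, Finset.sum_singleton]
  exact Iff.rfl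

/-- the formula `c(w_1 - w_0)` in the variables `Fin 2` -/
theorem KE1_two (c : P1 R) (x : Fin 2 → G) :
    (c.subst (fun (_ : Unit) (j : Fin 2) => if j = 0 then (-1 : R) else 1)).ev G x ↔
      at1 c (x 1 - x 0) := by
  rw [PP.ev_subst]
  have h : (fun _ : Unit => ∑ j : Fin 2, (if j = 0 then (-1 : R) else 1) • x j) =
      fun _ : Unit => x 1 - x 0 := by
    funext _
    rw [Fin.sum_univ_two]
    simp only [if_true, Fin.one_eq_zero_iff, OfNat.ofNat_ne_one, if_false,
      neg_smul, one_smul]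
    abel
  rw [h]
  exact Iff.rfl

/-- a formula at a constant tuple is a formula in one variable -/
theorem KE1_const {n : ℕ} (θ : PP R (Fin n)) (m : G) :
    at1 (θ.subst (fun (_ : Fin n) (_ : Unit) => (1 : R))) m ↔ θ.ev G (fun _ => m) := by
  unfold at1
  rw [PP.ev_subst]
  simp only [one_smul, Finset.univ_unique, Finset.sum_singleton]

/-- the condition `θ(x)` -/
def KE1_cond (G : Type u) (θ : P1 R) : Cond R PUnit.{u+1} G :=
  ⟨1, θ.subst (fun _ _ => (1 : R)), fun _ => Sum.inl PUnit.unit⟩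

/-- the condition `c(b - x)` -/
def KE1_condc {G : Type u} (c : P1 R) (b : G) : Cond R PUnit.{u+1} G :=
  ⟨2, c.subst (fun _ j => if j = 0 then (-1 : R) else 1),
    fun j => if j = 0 then Sum.inl PUnit.unit else Sum.inr b⟩

theorem KE1_cond_holds (θ : P1 R) (x : PUnit.{u+1} → G) :
    (KE1_cond G θ).holds x ↔ at1 θ (x PUnit.unit) := by
  unfold Cond.holds KE1_cond
  exact KE1_one θ _

theorem KE1_condc_holds (c : P1 R) (b : G) (x : PUnit.{u+1} → G) :
    (KE1_condc c b).holds x ↔ at1 c (b - x PUnit.unit) := by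
  unfold Cond.holds KE1_condc
  exact KE1_two c _

end

theorem p_KE1 (hEXT : Stmt_EXT.{u}) : Stmt_KE1.{u} := by
  intro R _ G _ _ hAC hCl c d hS a b hda hca hdb
  have claim : ∀ θ : P1 R, at1 θ a → ∃ u : G, at1 θ u ∧ at1 c (b - u) := by
    intro θ hθ
    have h1 : Le c (joinF (d.meet θ) c) := le_join_right _ _
    have h2 : Le (joinF (d.meet θ) c) d := join_le (meet_le_left _ _) hS.1
    rcases hS.2 _ h1 h2 with h | h
    · exact absurd (hCl _ _ h a (le_join_left _ _ G a ((at1_meet d θ a).2 ⟨hda, hθ⟩))) hca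
    · obtain ⟨u, v, hu, hv, rfl⟩ := (at1_join _ _ _).1 (hCl _ _ h b hdb)
      refine ⟨u, ((at1_meet d θ u).1 hu).2, ?_⟩
      rw [add_sub_cancel_left]
      exact hv
  obtain ⟨x, hx⟩ := hAC PUnit.{u+1} ({q | ∃ θ : P1 R, at1 θ a ∧ q = KE1_cond G θ} ∪ {KE1_condc c b})
    (by
      intro F hF hfin
      have key : ∃ θ : P1 R, at1 θ a ∧ ∀ x : PUnit.{u+1} → G, at1 θ (x PUnit.unit) →
          at1 c (b - x PUnit.unit) → ∀ q ∈ F, q.holds x := by
        induction F, hfin using Set.Finite.induction_on with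
        | empty => exact ⟨topF, at1_top a, fun x _ _ q hq => absurd hq (Set.notMem_empty q)⟩
        | @insert f F _ _ ih =>
          obtain ⟨θ, hθ, h⟩ := ih fun q hq => hF (Set.mem_insert_of_mem _ hq)
          rcases hF (Set.mem_insert f F) with ⟨θ₁, hθ₁, rfl⟩ | hf
          · refine ⟨θ₁.meet θ, (at1_meet _ _ _).2 ⟨hθ₁, hθ⟩, fun x hx hc q hq => ?_⟩
            have hx' := (at1_meet _ _ _).1 hx
            rcases hq with rfl | hq
            · exact (KE1_cond_holds θ₁ x).2 hx'.1
            · exact h x hx'.2 hc q hq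
          · refine ⟨θ, hθ, fun x hx hc q hq => ?_⟩
            rcases hq with rfl | hq
            · have e : q = KE1_condc c b := hf
              rw [e]
              exact (KE1_condc_holds c b x).2 hc
            · exact h x hx hc q hq
      obtain ⟨θ, hθ, h⟩ := key
      obtain ⟨u, hu, hc⟩ := claim θ hθ
      exact ⟨fun _ => u, h (fun _ => u) hu hc⟩)
  have hc : at1 c (b - x PUnit.unit) := (KE1_condc_holds c b x).1 (hx _ (Or.inr rfl))
  have hθ : ∀ θ : P1 R, at1 θ a → at1 θ (x PUnit.unit) := fun θ h =>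
    (KE1_cond_holds θ x).1 (hx _ (Or.inl ⟨θ, h, rfl⟩))
  obtain ⟨e, he⟩ := hEXT R G G hAC PUnit.{u+1} (fun _ => a) (fun _ => x PUnit.unit)
    (fun n θ v h => (KE1_const θ _).1 (hθ _ ((KE1_const θ _).2 h)))
  refine ⟨e, ?_⟩
  have h1 : e a - b = -(b - x PUnit.unit) := by
    have := he PUnit.unit
    rw [this]
    abel
  rw [h1]
  exact at1_neg c hc

end Pool.ZgCB.KK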