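import Pool.Agent.Work.MP_d94bda_kk.InterfaceK
/-! # MP_d94bda_al, part K: block KE2, typed by helper74 -/

set_option autoImplicit false

open scoped BigOperators

namespace Pool.ZgCB.KK
universe u

theorem p_KE2 (h1 : Stmt_KE1.{u}) : Stmt_KE2.{u} := by
  intro R _ G _ _ hAC hCl hLoc c d hS e he a hda
  by_contra hc
  have hdea : at1 d (e a) := at1_map d e hda
  obtain ⟨e', he'⟩ := h1 R G hAC hCl c d hS (e a) a hdea hc hda
  rcases hLoc (e' ∘ₗ e) with hb | hb
  · let E : G ≃ₗ[R] G := LinearEquiv.ofBijective (e' ∘ₗ e) hb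
    have hE : ∀ x, E x = e' (e x) := fun x => rfl
    let g : G →ₗ[R] G := (E.symm : G →ₗ[R] G) ∘ₗ e'
    have hg : ∀ x, g (e x) = x := by
      intro x
      change E.symm (e' (e x)) = x
      rw [← hE x, LinearEquiv.symm_apply_apply]
    rcases hLoc (e ∘ₗ g) with hp | hp
    · apply he
      refine ⟨fun x y hxy => ?_, fun y => ?_⟩
      · rw [← hg x, ← hg y, hxy]
      · obtain ⟨x, hx⟩ := hp.2 y
        exact ⟨g x, hx⟩
    · have h0 : ∀ x, e (g x) = 0 := by
        intro x
        apply hp.1
        rw [map_zero]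
        change e (g x) - e (g (e (g x))) = 0
        rw [hg (g x), sub_self]
      have h2 : e a = 0 := by
        have := h0 (e a)
        rwa [hg] at this
      apply hc
      rw [h2]
      exact at1_zero c
  · let E : G ≃ₗ[R] G := LinearEquiv.ofBijective (LinearMap.id - e' ∘ₗ e) hb
    have hE : ∀ x, E x = x - e' (e x) := fun x => rfl
    have h3 : at1 c (E a) := by
      rw [hE, ← neg_sub]
      exact at1_neg c he'
    have h4 : at1 c ((E.symm : G →ₗ[R] G) (E a)) := at1_map c _ h3
    have h5 : (E.symm : G →ₗ[R] G) (E a) = a := LinearEquiv.symm_apply_apply E a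
    rw [h5] at h4
    exact hc (at1_map c e h4)

end Pool.ZgCB.KK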