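import Pool.Agent.Work.MP_d94bda_kk.InterfaceK
/-! Block KFG: a point without open pairs of finite length is finitely generated. -/

open scoped BigOperators

namespace Pool.ZgCB.KK
universe u

theorem p_KFG (hKMX : Stmt_KMX.{u}) (hKPL : Stmt_KPL.{u}) (hKCH : Stmt_KCH.{u})
    (hKFS : Stmt_KFS.{u}) (hKST : Stmt_KST.{u}) (hKIN : Stmt_KIN.{u}) : Stmt_KFG.{u} := by
  intro R _ C _ _ _ _ hR1 G _ _ hpt hAC hLoc hCl
  by_contra hfg
  have hart : IsArtinianRing R := IsArtinianRing.of_finite C R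
  obtain ⟨N, hN⟩ := hKMX R G hpt.2.1
  obtain ⟨L, hLN, hGL, hno⟩ := hKST R C G hpt.2 hLoc hfg (hKPL R G hCl hR1) N hN
  have hClL : Cl0 R L := by
    intro φ ψ h0
    by_contra hc
    exact hno (hKFS R C L φ ψ h0 (not_cl.1 hc))
  have hch := hKCH R hR1
  have key : ∀ t : P1 R, Relation.ReflTransGen (SStep (R := R)) botF t →
      ∀ a : G, at1 t a → ∃ y : L, (y : G) = a ∧ at1 t y := by
    intro t ht
    induction ht with
    | refl =>
      intro a ha
      exact ⟨0, by rw [(at1_bot a).1 ha]; rfl, (at1_bot _).2 rfl⟩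
    | tail _ h2 ih => exact hKIN R C G hAC hCl hLoc hfg hch L hGL hClL _ _ h2 ih
  have hL : L = ⊤ := by
    refine eq_top_iff.2 fun x _ => ?_
    obtain ⟨y, hy, -⟩ := key topF hch x (at1_top x)
    rw [← hy]
    exact y.2
  apply hN.1
  rw [eq_top_iff, ← hL]
  exact hLN

end Pool.ZgCB.KK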