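import Pool.Agent.Work.MP_d94bda_kk.InterfaceK
import Pool.Agent.Work.MP_d94bda_cb.KDual

/-!
# MP_d94bda_al, part K: the final contradiction (helper66)

`R1 topF botF → R0 topF botF` for every artin algebra, from KFG (for `R` and `Rᵐᵒᵖ`) and the
elementary duality: the Krull-Gabriel dimension of an artin algebra is not one.
-/

open scoped BigOperators

namespace Pool.ZgCB.KK
universe u

/-- KFIN. If `1 / 0` has finite length modulo the intervals of finite length then it has finite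
length: the m-dimension is not one. -/
def Stmt_KFIN : Prop :=
  ∀ (R : Type u) [Ring R] (C : Type u) [CommRing C] [IsArtinianRing C] [Algebra C R]
    [Module.Finite C R], R1 (topF : P1 R) botF → R0 (topF : P1 R) botF

/-- the pair `(φ, ψ)` is simple modulo the pairs of finite length -/
structure KFIN_Simple {R : Type u} [Ring R] (φ ψ : P1 R) : Prop where
  le : Le ψ φ
  inf : ¬ R0 φ ψ
  simple : ∀ θ, Le ψ θ → Le θ φ → R0 φ θ ∨ R0 θ ψ

/-- existence of a simple pair -/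
theorem KFIN_exists (hLMO : Stmt_LMO.{u}) {R : Type u} [Ring R] (h0 : Serre (R0 : P1 R → P1 R → Prop))
    (h1 : R1 (topF : P1 R) botF) (h2 : ¬ R0 (topF : P1 R) botF) :
    ∃ φ ψ : P1 R, KFIN_Simple φ ψ := by
  classical
  obtain ⟨N, hN⟩ := h1
  set b : P1 R := topF.meet botF with hb
  have hex : ∃ n, ¬ Long R0 n b topF := ⟨N, hN⟩
  set n := Nat.find hex with hn
  have hn1 : ¬ Long R0 n b topF := Nat.find_spec hex
  have hlt : ∀ m, m < n → Long R0 m b topF := fun m hm => by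
    have := Nat.find_min hex hm
    exact not_not.1 this
  have hbt : Le b topF := le_top _
  have hn0 : n ≠ 0 := by
    intro h
    rw [h] at hn1
    exact hn1 hbt
  have hnot : ¬ R0 (topF : P1 R) b := fun h =>
    h2 (h0.trans _ _ _ h (h0.le _ _ (meet_le_right _ _)))
  have hn2 : n ≠ 1 := by
    intro h
    rw [h] at hn1
    exact hn1 ⟨b, topF, Le.refl _, hbt, Le.refl _, hnot⟩
  obtain ⟨k, hk⟩ : ∃ k, n = k + 2 := ⟨n - 2, by omega⟩
  obtain ⟨c, d, hc, hcd, hdt, hj⟩ := hlt (k + 1) (by omega)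
  refine ⟨d, c, hcd, hj, ?_⟩
  intro θ hcθ hθd
  by_contra hcon
  push Not at hcon
  apply hn1
  rw [hk]
  exact ⟨θ, d, ⟨c, θ, hc, hcθ, Le.refl _, hcon.2⟩, hθd, hdt, hcon.1⟩

/-- In a simple pair there is a least formula of finite colength. -/
theorem KFIN_star (hMXF : Stmt_MXF.{u}) (hTHH : Stmt_THH.{u}) (hKLO : Stmt_KLO.{u})
    (hKGE : Stmt_KGE.{u}) (hKFG : Stmt_KFG.{u}) {R : Type u} [Ring R] {C : Type u} [CommRing C]
    [IsArtinianRing C] [Algebra C R] [Module.Finite C R]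
    (h0 : Serre (R0 : P1 R → P1 R → Prop)) (h1 : R1 (topF : P1 R) botF) {φ ψ : P1 R}
    (hs : KFIN_Simple φ ψ) :
    ∃ ξ : P1 R, Le ψ ξ ∧ Le ξ φ ∧ R0 φ ξ ∧ ∀ θ, Le ψ θ → Le θ φ → R0 φ θ → Le ξ θ := by
  obtain ⟨p, hfil, hφ, hψ, hcl, hmax⟩ := hMXF R R0 h0 φ ψ hs.inf
  have hbot : (botF : P1 R) ∉ p := fun h => hψ (hfil.up _ h _ (bot_le ψ))
  have hirr : Irr p := by
    intro ω₁ ω₂ h₁ h₂
    obtain ⟨α₁, hα₁, hr₁⟩ := hmax ω₁ h₁
    obtain ⟨α₂, hα₂, hr₂⟩ := hmax ω₂ h₂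
    refine ⟨α₁.meet α₂, hfil.meet _ hα₁ _ hα₂, fun h => hψ ?_⟩
    refine hcl _ h _ (h0.join _ _ _ ?_ ?_)
    · refine h0.trans _ _ _ (h0.le _ _ ?_) hr₁
      exact le_meet ((meet_le_left _ _).trans (meet_le_left _ _)) (meet_le_right _ _)
    · refine h0.trans _ _ _ (h0.le _ _ ?_) hr₂
      exact le_meet ((meet_le_left _ _).trans (meet_le_right _ _)) (meet_le_right _ _)
  obtain ⟨N, iN, iM, a, hull⟩ := hTHH R p hfil hbot hirr
  have hrule : ∀ μ ν : P1 R, R0 μ ν → Rule p μ ν := by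
    intro μ ν h ρ θ hρ hex
    exact hcl _ hex _ (h0.exr μ ν θ ρ h hρ)
  have hcl0 : Cl0 R N := fun μ ν h => hull.closed μ ν (hrule μ ν h)
  have hfin : Module.Finite R N :=
    hKFG R C h1 N hull.point hull.ac (hKLO R p N a hull hirr) hcl0
  haveI : IsNoetherianRing R := by
    haveI : IsNoetherianRing C := inferInstance
    haveI : IsNoetherian C R := isNoetherian_of_isNoetherianRing_of_finite C R
    exact isNoetherian_of_tower C this
  obtain ⟨γ, hγ⟩ := hKGE R Unit N (fun _ => a) hfin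
  have hγp : γ ∈ p := by
    rw [← hull.type]
    exact (hγ N (fun _ => a)).2 ⟨LinearMap.id, fun _ => rfl⟩
  have hγle : ∀ θ ∈ p, Le γ θ := by
    intro θ hθ M _ _ x hx
    obtain ⟨f, hf⟩ := (hγ M (fun _ => x)).1 hx
    have h2 : at1 θ a := (hull.type θ).2 hθ
    have h3 := at1_map θ f h2
    have h4 : f a = x := hf ()
    rwa [h4] at h3
  refine ⟨joinF γ ψ, le_join_right _ _, join_le (hγle φ hφ) hs.le, ?_, ?_⟩
  · rcases hs.simple (joinF γ ψ) (le_join_right _ _) (join_le (hγle φ hφ) hs.le) with h | h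
    · exact h
    · exact absurd (hcl _ (hfil.up _ hγp _ (le_join_left _ _)) _ h) hψ
  · intro θ h2 h3 h4
    exact join_le (hγle θ (hcl _ hφ _ h4)) h2

theorem p_KFIN (hFAR : Stmt_FAR.{u}) (hLMO : Stmt_LMO.{u}) (hLIS : Stmt_LIS.{u})
    (hSLE : Stmt_SLE.{u}) (hDER : Stmt_DER.{u}) (hMXF : Stmt_MXF.{u}) (hTHH : Stmt_THH.{u})
    (hKLO : Stmt_KLO.{u}) (hKGE : Stmt_KGE.{u}) (hKFG : Stmt_KFG.{u}) : Stmt_KFIN.{u} := by
  intro R _ C _ _ _ _ h1
  by_contra h2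
  have h0 : Serre (R0 : P1 R → P1 R → Prop) := hDER R _ (hSLE R)
  have h0' : Serre (R0 : P1 Rᵐᵒᵖ → P1 Rᵐᵒᵖ → Prop) := hDER Rᵐᵒᵖ _ (hSLE Rᵐᵒᵖ)
  set e : Anti R Rᵐᵒᵖ := Anti.op R with he
  have h1' : R1 (topF : P1 Rᵐᵒᵖ) botF := dual_R1_top hFAR hLMO hLIS hSLE hDER e h1
  haveI : Module.Finite C Rᵐᵒᵖ := Module.Finite.equiv (MulOpposite.opLinearEquiv C : R ≃ₗ[C] Rᵐᵒᵖ)
  have hD : ∀ φ ψ : P1 R, R0 φ ψ ↔ R0 (dualF e ψ) (dualF e φ) :=
    fun φ ψ => dual_R0 hFAR hLMO hLIS hSLE e φ ψ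
  obtain ⟨φ, ψ, hs⟩ := KFIN_exists hLMO h0 h1 h2
  obtain ⟨ξ, hψξ, hξφ, hφξ, hξmin⟩ := KFIN_star (C := C) hMXF hTHH hKLO hKGE hKFG h0 h1 hs
  have hξψ : ¬ R0 ξ ψ := fun h => hs.inf (h0.trans _ _ _ hφξ h)
  have hs' : KFIN_Simple (dualF e ψ) (dualF e ξ) := by
    refine ⟨dual_anti hFAR e hψξ, fun h => hξψ ((hD ξ ψ).2 h), ?_⟩
    intro θ' h3 h4
    have h5 : Le ψ (dualF e.symm θ') := (le_dd e ψ).trans (dual_anti hFAR e.symm h4)
    have h6 : Le (dualF e.symm θ') ξ := (dual_anti hFAR e.symm h3).trans (dd_le e ξ)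
    rcases hs.simple _ h5 (h6.trans hξφ) with h | h
    · right
      have h7 := hξmin _ h5 (h6.trans hξφ) h
      exact h0'.le _ _ ((le_dd' e θ').trans (dual_anti hFAR e h7))
    · left
      have h7 := (hD _ _).1 h
      exact h0'.trans _ _ _ h7 (h0'.le _ _ (dd_le' e θ'))
  obtain ⟨ζ', h3, h4, h5, h6⟩ := KFIN_star (C := C) hMXF hTHH hKLO hKGE hKFG h0' h1' hs'
  set ζ : P1 R := dualF e.symm ζ' with hζ
  have hψζ : Le ψ ζ := (le_dd e ψ).trans (dual_anti hFAR e.symm h4)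
  have hζξ : Le ζ ξ := (dual_anti hFAR e.symm h3).trans (dd_le e ξ)
  have hζψ : R0 ζ ψ := by
    rw [hD]
    exact h0'.trans _ _ _ h5 (h0'.le _ _ (le_dd' e ζ'))
  have hζmax : ∀ θ, Le ψ θ → Le θ ξ → R0 θ ψ → Le θ ζ := by
    intro θ h7 h8 h9
    have h10 := h6 (dualF e θ) (dual_anti hFAR e h8) (dual_anti hFAR e h7) ((hD _ _).1 h9)
    exact (le_dd e θ).trans (dual_anti hFAR e.symm h10)
  have hξζ : R0 ξ ζ := by
    refine ⟨2, ?_⟩
    rintro ⟨c₁, d₁, ⟨c₀, d₀, h7, h8, h9, h10⟩, h11, h12, h13⟩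
    have hζc₀ : Le ζ c₀ := (le_meet hζξ (Le.refl ζ)).trans h7
    have hζc₁ : Le ζ c₁ := (hζc₀.trans h8).trans h9
    have hc₁ξ : Le c₁ ξ := h11.trans h12
    rcases hs.simple c₁ (hψζ.trans hζc₁) (hc₁ξ.trans hξφ) with h | h
    · have h14 := hξmin c₁ (hψζ.trans hζc₁) (hc₁ξ.trans hξφ) h
      exact h13 (h12.trans h14)
    · have h14 := hζmax c₁ (hψζ.trans hζc₁) hc₁ξ h
      exact h10 ((h9.trans h14).trans hζc₀)
  exact hs.inf (h0.trans _ _ _ hφξ (h0.trans _ _ _ hξζ hζψ))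

end Pool.ZgCB.KK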