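import Pool.Agent.Work.MP_d94bda_kk.InterfaceK
/-!
# MP_d94bda_al, block KMX: maximal submodules over an artinian ring
-/

namespace Pool.ZgCB.KK
universe u

theorem KMX_aux (R : Type u) [Ring R] [IsArtinianRing R] (M : Type u) [AddCommGroup M]
    [Module R M] : Nontrivial M → ∃ N : Submodule R M, IsCoatom N := by
  refine IsSemiprimaryRing.induction ℤ R M
    (P := fun M ↦ Nontrivial M → ∃ N : Submodule R M, IsCoatom N) ?_ ?_
  · intro M _ _ _ _ _ _ hnt
    exact IsCoatomic.exists_coatom (Submodule R M)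
  · intro M _ _ _ _ N hN hQ hnt
    by_cases hq : Nontrivial (M ⧸ N)
    · obtain ⟨K, hK⟩ := hQ hq
      exact ⟨K.comap N.mkQ, (Submodule.isCoatom_comap_iff N.mkQ_surjective).2 hK⟩
    · have htop : N = ⊤ := by
        by_contra hne
        exact hq (Submodule.Quotient.nontrivial_iff.2 hne)
      have hsurj : Function.Surjective N.subtype := by
        intro x
        have hx : x ∈ N := by rw [htop]; trivial
        exact ⟨⟨x, hx⟩, rfl⟩
      have e : N ≃ₗ[R] M := LinearEquiv.ofBijective N.subtype ⟨N.subtype_injective, hsurj⟩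
      have hN' : Nontrivial N := e.toEquiv.nontrivial
      obtain ⟨K, hK⟩ := hN hN'
      exact ⟨K.comap e.symm.toLinearMap,
        (Submodule.isCoatom_comap_iff e.symm.surjective).2 hK⟩

theorem p_KMX : Stmt_KMX.{u} := fun R _ _ M _ _ h => KMX_aux R M h

end Pool.ZgCB.KK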