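import Pool.Agent.Work.MP_d94bda_kk.InterfaceK
/-!
# Block KPL of MP_d94bda_al: bounded pp length from `R1 topF botF`
-/

set_option autoImplicit false

namespace Pool.ZgCB.KK
universe u

/-- The increasing chain `η_0 = θ_0`, `η_(i+1) = η_i + θ_(i+1)`. -/
noncomputable def KPL_eta {R : Type u} [Ring R] (θ : ℕ → P1 R) : ℕ → P1 R
  | 0 => θ 0
  | i + 1 => joinF (KPL_eta θ i) (θ (i + 1))

/-- KPL. -/
theorem p_KPL (hLMO : Stmt_LMO.{u}) : Stmt_KPL.{u} := by
  intro R _ G _ _ h0 h1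
  obtain ⟨m, hm⟩ := h1
  refine ⟨m, ?_⟩
  intro θ hθ
  apply hm
  have hA : ∀ i, i ≤ m → ∀ a : G, at1 (KPL_eta θ i) a ↔ at1 (θ i) a := by
    intro i
    induction i with
    | zero => intro _ a; exact Iff.rfl
    | succ i ih =>
      intro hi a
      have hj : at1 (KPL_eta θ (i + 1)) a ↔ ∃ b c : G, at1 (KPL_eta θ i) b ∧ at1 (θ (i + 1)) c ∧ a = b + c :=
        at1_join (KPL_eta θ i) (θ (i + 1)) a
      rw [hj]
      constructor
      · rintro ⟨b, c, hb, hc, rfl⟩
        exact at1_add (θ (i + 1)) ((hθ i (by omega)).1 b ((ih (by omega) b).1 hb)) hc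
      · intro ha
        exact ⟨0, a, at1_zero _, ha, (zero_add a).symm⟩
  have hB : ∀ i, i < m → ¬ R0 (KPL_eta θ (i + 1)) (KPL_eta θ i) := by
    intro i hi hR
    have hcl := h0 _ _ hR
    obtain ⟨a, ha, hna⟩ := (hθ i hi).2
    exact hna ((hA i (by omega) a).1 (hcl a ((hA (i + 1) (by omega) a).2 ha)))
  have hC : ∀ i, i ≤ m → Long R0 i botF (KPL_eta θ i) := by
    intro i
    induction i with
    | zero => intro _; exact bot_le _
    | succ i ih =>
      intro hi
      exact ⟨KPL_eta θ i, KPL_eta θ (i + 1), ih (by omega), le_join_left _ _, Le.refl _, hB i (by omega)⟩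
  exact (hLMO R R0).1 m botF (KPL_eta θ m) _ _ (meet_le_right _ _) (le_top _) (hC m le_rfl)

end Pool.ZgCB.KK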