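import Pool.Agent.Work.MP_d94bda_kk.InterfaceK
/-!
# MP_d94bda_al, block KST: a submodule without finitely generated summand
-/

open scoped BigOperators

namespace Pool.ZgCB.KK
universe u

theorem KST_dec {R : Type u} [Ring R] {G : Type u} [AddCommGroup G] [Module R G] {N : Submodule R G}
    (hN : IsCoatom N) {x₀ : G} (hx : x₀ ∉ N) (g : G) : ∃ (v : N) (s : R), g = (v : G) + s • x₀ := by
  have h1 : N ⊔ Submodule.span R {x₀} = ⊤ := by
    refine hN.2 _ (lt_of_le_of_ne le_sup_left ?_)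
    intro h
    apply hx
    rw [h]
    exact Submodule.mem_sup_right (Submodule.mem_span_singleton_self x₀)
  have h2 : g ∈ N ⊔ Submodule.span R {x₀} := by
    rw [h1]
    trivial
  obtain ⟨v, hv, w, hw, rfl⟩ := Submodule.mem_sup.1 h2
  obtain ⟨s, rfl⟩ := Submodule.mem_span_singleton.1 hw
  exact ⟨⟨v, hv⟩, s, rfl⟩

theorem KST_A {R : Type u} [Ring R] [IsNoetherianRing R] (h1 : Stmt_KGE.{u}) {N : Type u} [AddCommGroup N]
    [Module R N] {n : ℕ} (ζ : Fin n → N) (r : Fin n → R) (e : N →ₗ[R] N) (he : ∀ v, e (e v) = e v)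
    (hfin : Module.Finite R (LinearMap.range e)) :
    ∃ ω : PP R (Fin n), ∀ (A : Type u) [AddCommGroup A] [Module R A] (x : Fin n → A),
      ω.ev A x ↔ ∃ (f : N →ₗ[R] A) (a : A), ∀ j, x j = f (e (ζ j)) + r j • a := by
  obtain ⟨γ, hγ⟩ := h1 R (Fin n) (LinearMap.range e × R) (fun j => (e.rangeRestrict (ζ j), r j)) inferInstance
  refine ⟨γ, fun A _ _ x => (hγ A x).trans ⟨?_, ?_⟩⟩
  · rintro ⟨f, hf⟩
    refine ⟨f ∘ₗ LinearMap.inl R (LinearMap.range e) R ∘ₗ e.rangeRestrict, f (0, 1), fun j => ?_⟩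
    have h2 : e.rangeRestrict (e (ζ j)) = e.rangeRestrict (ζ j) := Subtype.ext (he (ζ j))
    rw [← hf j]
    show f (e.rangeRestrict (ζ j), r j) = f (e.rangeRestrict (e (ζ j)), 0) + r j • f (0, 1)
    rw [h2, ← map_smul, ← map_add]
    congr 1
    ext
    · simp
    · simp
  · rintro ⟨f, a, hf⟩
    refine ⟨LinearMap.coprod (f ∘ₗ (LinearMap.range e).subtype) (LinearMap.toSpanSingleton R A a), fun j => ?_⟩
    rw [hf j]
    show f (e (ζ j)) + (LinearMap.toSpanSingleton R A a) (r j) = _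
    rw [LinearMap.toSpanSingleton_apply]

theorem KST_B {R : Type u} [Ring R] [IsNoetherianRing R] (h1 : Stmt_KGE.{u}) {N : Type u} [AddCommGroup N]
    [Module R N] {n : ℕ} (ζ : Fin n → N) (e : N →ₗ[R] N) (he : ∀ v, e (e v) = e v)
    (hfin : Module.Finite R (LinearMap.range e)) :
    ∃ ω : PP R (Fin n), ∀ (A : Type u) [AddCommGroup A] [Module R A] (x : Fin n → A),
      ω.ev A x ↔ ∃ f : N →ₗ[R] A, ∀ j, x j = f (e (ζ j)) := by
  obtain ⟨γ, hγ⟩ := h1 R (Fin n) (LinearMap.range e) (fun j => e.rangeRestrict (ζ j)) inferInstance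
  refine ⟨γ, fun A _ _ x => (hγ A x).trans ⟨?_, ?_⟩⟩
  · rintro ⟨f, hf⟩
    refine ⟨f ∘ₗ e.rangeRestrict, fun j => ?_⟩
    have h2 : e.rangeRestrict (e (ζ j)) = e.rangeRestrict (ζ j) := Subtype.ext (he (ζ j))
    rw [← hf j]
    show f (e.rangeRestrict (ζ j)) = f (e.rangeRestrict (e (ζ j)))
    rw [h2]
  · rintro ⟨f, hf⟩
    refine ⟨f ∘ₗ (LinearMap.range e).subtype, fun j => ?_⟩
    rw [hf j]
    rfl

theorem KST_fin {R : Type u} [Ring R] {G : Type u} [AddCommGroup G] [Module R G] {N : Submodule R G}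
    (hN : IsCoatom N) {x₀ : G} (hx : x₀ ∉ N) (e : N →ₗ[R] N) (he : ∀ v, e (e v) = e v)
    (hfin : Module.Finite R (LinearMap.range e)) :
    Module.Finite R (G ⧸ (LinearMap.ker e).map N.subtype) := by
  set L := (LinearMap.ker e).map N.subtype with hL
  let Φ : (LinearMap.range e × R) →ₗ[R] (G ⧸ L) := LinearMap.coprod
    (L.mkQ ∘ₗ N.subtype ∘ₗ (LinearMap.range e).subtype) (LinearMap.toSpanSingleton R (G ⧸ L) (L.mkQ x₀))
  refine Module.Finite.of_surjective Φ ?_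
  intro y
  obtain ⟨g, rfl⟩ := L.mkQ_surjective y
  obtain ⟨v, s, rfl⟩ := KST_dec hN hx g
  refine ⟨(e.rangeRestrict v, s), ?_⟩
  show L.mkQ ((e v : N) : G) + (LinearMap.toSpanSingleton R (G ⧸ L) (L.mkQ x₀)) s = L.mkQ ((v : G) + s • x₀)
  rw [LinearMap.toSpanSingleton_apply, map_add, map_smul]
  congr 1
  rw [← sub_eq_zero, ← map_sub, Submodule.mkQ_apply, Submodule.Quotient.mk_eq_zero, hL]
  refine ⟨e v - v, ?_, rfl⟩
  show e v - v ∈ LinearMap.ker e
  rw [LinearMap.mem_ker, map_sub, he, sub_self]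

/-- the new idempotent -/
theorem KST_new {R : Type u} [Ring R] {G : Type u} [AddCommGroup G] [Module R G] (N : Submodule R G)
    (e : N →ₗ[R] N) (he : ∀ v, e (e v) = e v) (hH : HasFG R ((LinearMap.ker e).map N.subtype)) :
    ∃ e' : N →ₗ[R] N, (∀ v, e' (e' v) = e' v) ∧ (∀ v, e (e' v) = 0) ∧ (∀ v, e' (e v) = 0) ∧
      Module.Finite R (LinearMap.range e') ∧ ∃ v, e' v ≠ 0 := by
  obtain ⟨W, _, _, i, g, hW, hWn, hgi⟩ := hH
  have hle : (LinearMap.ker e).map N.subtype ≤ N := Submodule.map_subtype_le N _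
  let q : N →ₗ[R] ((LinearMap.ker e).map N.subtype) :=
    LinearMap.codRestrict _ (N.subtype ∘ₗ (LinearMap.id - e)) (fun v => by
      refine ⟨v - e v, ?_, rfl⟩
      show v - e v ∈ LinearMap.ker e
      rw [LinearMap.mem_ker, map_sub, he, sub_self])
  let l : ((LinearMap.ker e).map N.subtype) →ₗ[R] N := Submodule.inclusion hle
  have hel : ∀ y, e (l y) = 0 := by
    intro y
    obtain ⟨k, hk, hk2⟩ := y.2
    have h1 : l y = k := Subtype.ext hk2.symm
    rw [h1]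
    exact hk
  have hql : ∀ y, q (l y) = y := by
    intro y
    apply Subtype.ext
    show ((l y - e (l y) : N) : G) = y
    rw [hel, sub_zero]
    rfl
  have hqe : ∀ v, q (e v) = 0 := by
    intro v
    apply Subtype.ext
    show ((e v - e (e v) : N) : G) = 0
    rw [he, sub_self]
    rfl
  have hlw : ∀ w, l (i (g (q (l (i w))))) = l (i w) := by
    intro w
    rw [hql, hgi]
  refine ⟨l ∘ₗ i ∘ₗ g ∘ₗ q, fun v => hlw _, fun v => hel _, ?_, ?_, ?_⟩
  · intro v
    show l (i (g (q (e v)))) = 0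
    rw [hqe, map_zero, map_zero, map_zero]
  · let p : W →ₗ[R] LinearMap.range (l ∘ₗ i ∘ₗ g ∘ₗ q) :=
      LinearMap.codRestrict _ (l ∘ₗ i) (fun w => ⟨l (i w), hlw w⟩)
    refine Module.Finite.of_surjective p ?_
    rintro ⟨_, v, rfl⟩
    exact ⟨g (q v), rfl⟩
  · obtain ⟨w, hw⟩ := exists_ne (0 : W)
    refine ⟨l (i w), ?_⟩
    show l (i (g (q (l (i w))))) ≠ 0
    rw [hlw]
    intro h0
    apply hw
    have h1 : i w = 0 := by
      have h2 : q (l (i w)) = q 0 := by rw [h0]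
      rwa [hql, map_zero] at h2
    rw [← hgi w, h1, map_zero]

theorem KST_core {R : Type u} [Ring R] [IsNoetherianRing R] (h1 : Stmt_KGE.{u}) (h2 : Stmt_FRE.{u})
    (h3 : Stmt_KEX.{u}) (h4 : Stmt_KAC.{u}) {G : Type u} [AddCommGroup G] [Module R G] (hI : Indec R G)
    (hLoc : Loc R G) (hF : ¬ Module.Finite R G) (hP : ∃ m, PLen (R := R) m G) (N : Submodule R G)
    (hN : IsCoatom N) : ∃ L : Submodule R G, L ≤ N ∧ Module.Finite R (G ⧸ L) ∧ ¬ HasFG R L := by
  obtain ⟨x₀, hx₀⟩ : ∃ x₀, x₀ ∉ N := by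
    by_contra h
    push Not at h
    exact hN.1 (eq_top_iff.2 fun x _ => h x)
  obtain ⟨n, r, hr⟩ := Submodule.fg_iff_exists_fin_generating_family.1
    (IsNoetherian.noetherian (N.comap (LinearMap.toSpanSingleton R G x₀)))
  have hmem : ∀ s : R, s ∈ Submodule.span R (Set.range r) ↔ s • x₀ ∈ N := by
    intro s
    rw [hr, Submodule.mem_comap, LinearMap.toSpanSingleton_apply]
  have hrj : ∀ j, r j • x₀ ∈ N := fun j => (hmem _).1 (Submodule.subset_span ⟨j, rfl⟩)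
  let ζ : Fin n → N := fun j => ⟨r j • x₀, hrj j⟩
  let F : Set (PP R (Fin n)) := {ω | ∃ e : N →ₗ[R] N, (∀ v, e (e v) = e v) ∧
    Module.Finite R (LinearMap.range e) ∧ ∀ (A : Type u) [AddCommGroup A] [Module R A] (x : Fin n → A),
      ω.ev A x ↔ ∃ (f : N →ₗ[R] A) (a : A), ∀ j, x j = f (e (ζ j)) + r j • a}
  have hFA : ∀ e : N →ₗ[R] N, (∀ v, e (e v) = e v) → Module.Finite R (LinearMap.range e) →
      ∃ ω ∈ F, ∀ (A : Type u) [AddCommGroup A] [Module R A] (x : Fin n → A),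
      ω.ev A x ↔ ∃ (f : N →ₗ[R] A) (a : A), ∀ j, x j = f (e (ζ j)) + r j • a := by
    intro e he hf
    obtain ⟨ω, hω⟩ := KST_A h1 ζ r e he hf
    exact ⟨ω, ⟨e, he, hf, hω⟩, hω⟩
  have hFne : F.Nonempty := by
    have h5 : Module.Finite R (LinearMap.range (0 : N →ₗ[R] N)) := by
      rw [LinearMap.range_zero]
      infer_instance
    obtain ⟨ω, hω, -⟩ := hFA 0 (fun v => rfl) h5
    exact ⟨ω, hω⟩
  obtain ⟨ω, ⟨e, he, hfin, hω⟩, hmax⟩ := h4 R G hP n F hFne
  refine ⟨(LinearMap.ker e).map N.subtype, Submodule.map_subtype_le N _, KST_fin hN hx₀ e he hfin, ?_⟩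
  intro hH
  obtain ⟨e', he', hee', he'e, hfin', v₀, hv₀⟩ := KST_new N e he hH
  -- the sum of the idempotents
  have hs : ∀ v, (e + e') ((e + e') v) = (e + e') v := by
    intro v
    simp only [LinearMap.add_apply, map_add, he, he', hee', he'e, add_zero, zero_add]
  have hsf : Module.Finite R (LinearMap.range (e + e')) := by
    have h5 : (LinearMap.range e ⊔ LinearMap.range e').FG :=
      Submodule.FG.sup (Module.Finite.iff_fg.1 hfin) (Module.Finite.iff_fg.1 hfin')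
    have h6 : LinearMap.range (e + e') ≤ LinearMap.range e ⊔ LinearMap.range e' := by
      rintro _ ⟨v, rfl⟩
      exact Submodule.add_mem_sup ⟨v, rfl⟩ ⟨v, rfl⟩
    have : Module.Finite R (LinearMap.range e ⊔ LinearMap.range e' : Submodule R N) :=
      Module.Finite.iff_fg.2 h5
    exact Module.Finite.of_injective (Submodule.inclusion h6) (Submodule.inclusion_injective h6)
  obtain ⟨ω', hω'F, hω'⟩ := hFA (e + e') hs hsf
  have hle : ∀ x : Fin n → G, ω'.ev G x → ω.ev G x := by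
    refine hmax ω' hω'F ?_
    intro x hx
    obtain ⟨f, a, hfa⟩ := (hω G x).1 hx
    refine (hω' G x).2 ⟨f ∘ₗ e, a, fun j => ?_⟩
    rw [hfa j]
    show f (e (ζ j)) + r j • a = f (e (e (ζ j) + e' (ζ j))) + r j • a
    rw [map_add, he, hee', add_zero]
  obtain ⟨γ, hγ⟩ := KST_B h1 ζ e' he' hfin'
  have hγω : ∀ x : Fin n → G, γ.ev G x → ω.ev G x := by
    intro x hx
    refine hle x ?_
    obtain ⟨f, hf⟩ := (hγ G x).1 hx
    refine (hω' G x).2 ⟨f ∘ₗ e', 0, fun j => ?_⟩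
    rw [hf j]
    show f (e' (ζ j)) = f (e' (e (ζ j) + e' (ζ j))) + r j • 0
    rw [map_add, he', he'e, zero_add, smul_zero, add_zero]
  -- free realization
  obtain ⟨X, _, _, ξ, hXf, hξ, hX⟩ := h2 R (Fin n) (γ.meet ω)
  rw [PP.ev_meet] at hξ
  obtain ⟨h, hh⟩ := (hγ X ξ).1 hξ.1
  obtain ⟨f, x, hfx⟩ := (hω X ξ).1 hξ.2
  obtain ⟨t, ht, -⟩ := h3 R G N hN x₀ hx₀ n r hrj (fun s hs => (hmem s).2 hs) X (h ∘ₗ e' - f ∘ₗ e) x (by
    intro j
    show h (e' (ζ j)) - f (e (ζ j)) = r j • x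
    rw [← hh j, hfx j]
    abel)
  have htz : ∀ j, t ((e' (ζ j) : N) : G) = ξ j := by
    intro j
    rw [ht]
    show h (e' (e' (ζ j))) - f (e (e' (ζ j))) = ξ j
    rw [he', hee', map_zero, sub_zero, hh j]
  have hγz : γ.ev G (fun j => ((e' (ζ j) : N) : G)) := (hγ G _).2 ⟨N.subtype, fun j => rfl⟩
  obtain ⟨k, hk⟩ := hX G (fun j => ((e' (ζ j) : N) : G)) ((PP.ev_meet _ _ _ _).2 ⟨hγz, hγω _ hγz⟩)
  have hz : ∀ j, e' (ζ j) = 0 := by
    rcases hLoc (k ∘ₗ t) with hb | hb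
    · exfalso
      apply hF
      have ht' : Function.Injective t := by
        intro a b hab
        apply hb.1
        show k (t a) = k (t b)
        rw [hab]
      exact Module.Finite.of_injective t ht'
    · intro j
      have h5 : (LinearMap.id - k ∘ₗ t : G →ₗ[R] G) ((e' (ζ j) : N) : G) = (LinearMap.id - k ∘ₗ t : G →ₗ[R] G) 0 := by
        rw [map_zero]
        show ((e' (ζ j) : N) : G) - k (t ((e' (ζ j) : N) : G)) = 0
        rw [htz, hk, sub_self]
      exact Subtype.ext (hb.1 h5)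
  obtain ⟨E, hE, hE0⟩ := h3 R G N hN x₀ hx₀ n r hrj (fun s hs => (hmem s).2 hs) G (N.subtype ∘ₗ e') 0 (by
    intro j
    show ((e' (ζ j) : N) : G) = r j • (0 : G)
    rw [hz j, smul_zero]
    rfl)
  have hEid : ∀ g, E (E g) = E g := by
    intro g
    obtain ⟨v, s, rfl⟩ := KST_dec hN hx₀ g
    have h5 : E ((v : G) + s • x₀) = ((e' v : N) : G) := by
      rw [map_add, map_smul, hE0, smul_zero, add_zero, hE]
      rfl
    rw [h5, hE]
    show ((e' (e' v) : N) : G) = _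
    rw [he']
  rcases hI.2 E hEid with h0 | h0
  · apply hv₀
    apply Subtype.ext
    have h5 := h0 (v₀ : G)
    rw [hE] at h5
    exact h5
  · apply hx₀
    rw [← h0 x₀, hE0]
    exact N.zero_mem

theorem p_KST (h1 : Stmt_KGE.{u}) (h2 : Stmt_FRE.{u}) (h3 : Stmt_KEX.{u}) (h4 : Stmt_KAC.{u}) :
    Stmt_KST.{u} := by
  intro R _ C _ _ _ _ G _ _ hI hLoc hF hP N hN
  have : IsNoetherian C R := isNoetherian_of_isNoetherianRing_of_finite C R
  have : IsNoetherianRing R := isNoetherian_of_tower C inferInstance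
  exact KST_core h1 h2 h3 h4 hI hLoc hF hP N hN

end Pool.ZgCB.KK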