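import Pool.Agent.Work.MP_d94bda_cb.BAC
import Pool.Agent.Work.MP_d94bda_cb.BPU
import Pool.Agent.Work.MP_d94bda_cb.BRA
import Pool.Agent.Work.MP_d94bda_cb.CB5
import Pool.Agent.Work.MP_d94bda_cb.CB6
import Pool.Agent.Work.MP_d94bda_cb.CBA
import Pool.Agent.Work.MP_d94bda_cb.CIR
import Pool.Agent.Work.MP_d94bda_cb.CL2
import Pool.Agent.Work.MP_d94bda_cb.CL4
import Pool.Agent.Work.MP_d94bda_cb.CLO
import Pool.Agent.Work.MP_d94bda_cb.CNT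
import Pool.Agent.Work.MP_d94bda_cb.CTF
import Pool.Agent.Work.MP_d94bda_cb.DD2
import Pool.Agent.Work.MP_d94bda_cb.DER
import Pool.Agent.Work.MP_d94bda_cb.DEX
import Pool.Agent.Work.MP_d94bda_cb.DIN
import Pool.Agent.Work.MP_d94bda_cb.DJN
import Pool.Agent.Work.MP_d94bda_cb.DMT
import Pool.Agent.Work.MP_d94bda_cb.DPC
import Pool.Agent.Work.MP_d94bda_cb.DTR
import Pool.Agent.Work.MP_d94bda_cb.EXT
import Pool.Agent.Work.MP_d94bda_cb.FAR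
import Pool.Agent.Work.MP_d94bda_cb.FGC
import Pool.Agent.Work.MP_d94bda_cb.FGL
import Pool.Agent.Work.MP_d94bda_cb.FGP
import Pool.Agent.Work.MP_d94bda_cb.FGS
import Pool.Agent.Work.MP_d94bda_cb.FGZ
import Pool.Agent.Work.MP_d94bda_cb.FIN
import Pool.Agent.Work.MP_d94bda_cb.FMP
import Pool.Agent.Work.MP_d94bda_cb.FRE
import Pool.Agent.Work.MP_d94bda_cb.HI
import Pool.Agent.Work.MP_d94bda_cb.HN
import Pool.Agent.Work.MP_d94bda_cb.HR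
import Pool.Agent.Work.MP_d94bda_cb.HS
import Pool.Agent.Work.MP_d94bda_cb.HZ
import Pool.Agent.Work.MP_d94bda_cb.KAP
import Pool.Agent.Work.MP_d94bda_cb.KEY
import Pool.Agent.Work.MP_d94bda_cb.LCH
import Pool.Agent.Work.MP_d94bda_cb.LIS
import Pool.Agent.Work.MP_d94bda_cb.LMO
import Pool.Agent.Work.MP_d94bda_cb.LSP
import Pool.Agent.Work.MP_d94bda_cb.LXA
import Pool.Agent.Work.MP_d94bda_cb.LXB
import Pool.Agent.Work.MP_d94bda_cb.LXC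
import Pool.Agent.Work.MP_d94bda_cb.MCO
import Pool.Agent.Work.MP_d94bda_cb.MIN
import Pool.Agent.Work.MP_d94bda_cb.MN0
import Pool.Agent.Work.MP_d94bda_cb.MNC
import Pool.Agent.Work.MP_d94bda_cb.MNM
import Pool.Agent.Work.MP_d94bda_cb.MXF
import Pool.Agent.Work.MP_d94bda_cb.NIS
import Pool.Agent.Work.MP_d94bda_cb.NPU
import Pool.Agent.Work.MP_d94bda_cb.PIA
import Pool.Agent.Work.MP_d94bda_cb.PIG
import Pool.Agent.Work.MP_d94bda_cb.RD1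
import Pool.Agent.Work.MP_d94bda_cb.RD2
import Pool.Agent.Work.MP_d94bda_cb.REA
import Pool.Agent.Work.MP_d94bda_cb.RET
import Pool.Agent.Work.MP_d94bda_cb.ROO
import Pool.Agent.Work.MP_d94bda_cb.SEQ
import Pool.Agent.Work.MP_d94bda_cb.SFI
import Pool.Agent.Work.MP_d94bda_cb.SFM
import Pool.Agent.Work.MP_d94bda_cb.SIG
import Pool.Agent.Work.MP_d94bda_cb.SLE
import Pool.Agent.Work.MP_d94bda_cb.SML
import Pool.Agent.Work.MP_d94bda_cb.SOL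
import Pool.Agent.Work.MP_d94bda_cb.TA0
import Pool.Agent.Work.MP_d94bda_cb.THA
import Pool.Agent.Work.MP_d94bda_cb.THH
import Pool.Agent.Work.MP_d94bda_cb.THT
import Pool.Agent.Work.MP_d94bda_cb.TRE
import Pool.Agent.Work.MP_d94bda_cb.TRP
import Pool.Agent.Work.MP_d94bda_kk.KAC
import Pool.Agent.Work.MP_d94bda_kk.KCH
import Pool.Agent.Work.MP_d94bda_kk.KE1
import Pool.Agent.Work.MP_d94bda_kk.KE2
import Pool.Agent.Work.MP_d94bda_kk.KE3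
import Pool.Agent.Work.MP_d94bda_kk.KEX
import Pool.Agent.Work.MP_d94bda_kk.KFC
import Pool.Agent.Work.MP_d94bda_kk.KFG
import Pool.Agent.Work.MP_d94bda_kk.KFIN
import Pool.Agent.Work.MP_d94bda_kk.KFS
import Pool.Agent.Work.MP_d94bda_kk.KGE
import Pool.Agent.Work.MP_d94bda_kk.KIN
import Pool.Agent.Work.MP_d94bda_kk.KLO
import Pool.Agent.Work.MP_d94bda_kk.KMX
import Pool.Agent.Work.MP_d94bda_kk.KPL
import Pool.Agent.Work.MP_d94bda_kk.KRH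
import Pool.Agent.Work.MP_d94bda_kk.KST

/-!
# MP_d94bda_al: complete assembly (generated)
-/

namespace Pool.ZgCB

universe u

theorem qz_MXF : Stmt_MXF.{u} := p_MXF

theorem qz_FRE : Stmt_FRE.{u} := p_FRE

theorem qz_REA : Stmt_REA.{u} := p_REA qz_FRE.{u}

theorem qz_CIR : Stmt_CIR.{u} := p_CIR

theorem qz_BPU : Stmt_BPU.{u} := p_BPU qz_CIR.{u}

theorem qz_BAC : Stmt_BAC.{u} := p_BAC

theorem qz_RET : Stmt_RET.{u} := p_RET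

theorem qz_EXT : Stmt_EXT.{u} := p_EXT

theorem qz_PIA : Stmt_PIA.{u} := p_PIA qz_BPU.{u} qz_BAC.{u} qz_RET.{u} qz_EXT.{u}

theorem qz_HZ : Stmt_HZ.{u} := p_HZ

theorem qz_HN : Stmt_HN.{u} := p_HN qz_HZ.{u} qz_EXT.{u} qz_RET.{u}

theorem qz_HR : Stmt_HR.{u} := p_HR qz_EXT.{u}

theorem qz_HI : Stmt_HI.{u} := p_HI

theorem qz_HS : Stmt_HS.{u} := p_HS qz_FRE.{u}

theorem qz_THH : Stmt_THH.{u} := p_THH qz_REA.{u} qz_BPU.{u} qz_BAC.{u} qz_PIA.{u} qz_HN.{u} qz_HR.{u} qz_HI.{u} qz_HS.{u}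

theorem qz_THA : Stmt_THA.{u} := p_THA qz_MXF.{u} qz_THH.{u}

theorem qz_SLE : Stmt_SLE.{u} := p_SLE

theorem qz_LMO : Stmt_LMO.{u} := p_LMO

theorem qz_LSP : Stmt_LSP.{u} := p_LSP qz_LMO.{u}

theorem qz_LIS : Stmt_LIS.{u} := p_LIS qz_LMO.{u} qz_LSP.{u}

theorem qz_DTR : Stmt_DTR.{u} := p_DTR qz_LMO.{u} qz_LSP.{u} qz_LIS.{u}

theorem qz_DMT : Stmt_DMT.{u} := p_DMT qz_LMO.{u} qz_LSP.{u} qz_LIS.{u}

theorem qz_DJN : Stmt_DJN.{u} := p_DJN qz_LMO.{u} qz_LSP.{u} qz_LIS.{u}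

theorem qz_DEX : Stmt_DEX.{u} := p_DEX qz_LMO.{u} qz_LIS.{u}

theorem qz_DIN : Stmt_DIN.{u} := p_DIN

theorem qz_DER : Stmt_DER.{u} := p_DER qz_DTR.{u} qz_DMT.{u} qz_DJN.{u} qz_DEX.{u} qz_DIN.{u}

theorem qz_FMP : Stmt_FMP.{u} := p_FMP qz_LMO.{u}

theorem qz_MN0 : Stmt_MN0.{u} := p_MN0 qz_PIA.{u} qz_EXT.{u}

theorem qz_MIN : Stmt_MIN.{u} := p_MIN qz_MN0.{u} qz_MXF.{u} qz_THH.{u} qz_SLE.{u}

theorem qz_CL2 : Stmt_CL2.{u} := p_CL2 qz_FMP.{u} qz_MIN.{u}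

theorem qz_FGZ : Stmt_FGZ.{u} := p_FGZ

theorem qz_MCO : Stmt_MCO.{u} := p_MCO

theorem qz_FGC : Stmt_FGC.{u} := p_FGC qz_MCO.{u}

theorem qz_FGP : Stmt_FGP.{u} := p_FGP qz_FGZ.{u} qz_FGC.{u}

theorem qz_FGS : Stmt_FGS.{u} := p_FGS

theorem qz_FGL : Stmt_FGL.{u} := p_FGL

theorem qz_LCH : Stmt_LCH.{u} := p_LCH

theorem qz_CL4 : Stmt_CL4.{u} := p_CL4 qz_FRE.{u} qz_FGP.{u} qz_FGS.{u} qz_FGL.{u} qz_THA.{u} qz_SLE.{u} qz_LCH.{u}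

theorem qz_NIS : Stmt_NIS.{u} := p_NIS qz_CL4.{u}

theorem qz_TA0 : Stmt_TA0.{u} := p_TA0 qz_THA.{u} qz_SLE.{u} qz_DER.{u} qz_NIS.{u}

theorem qz_CBA : Stmt_CBA.{u} := p_CBA qz_THA.{u} qz_SLE.{u} qz_DER.{u} qz_DIN.{u} qz_CL2.{u} qz_NIS.{u} qz_TA0.{u}

theorem qz_SEQ : Stmt_SEQ.{u} := p_SEQ

theorem qz_SFM : Stmt_SFM.{u} := p_SFM

theorem qz_FIN : Stmt_FIN.{u} := p_FIN qz_MIN.{u} qz_LMO.{u}

theorem qz_PIG : Stmt_PIG.{u} := p_PIG qz_THA.{u} qz_SFM.{u} qz_LCH.{u} qz_SLE.{u} qz_DER.{u} qz_FIN.{u} qz_NIS.{u} qz_TA0.{u}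

theorem qz_SIG : Stmt_SIG.{u} := p_SIG qz_SEQ.{u} qz_PIG.{u} qz_FGL.{u} qz_CL4.{u}

theorem qz_CLO : Stmt_CLO.{u} := p_CLO

theorem qz_SOL : Stmt_SOL.{u} := p_SOL

theorem qz_DPC : Stmt_DPC.{u} := p_DPC qz_CLO.{u} qz_SOL.{u}

theorem qz_TRE : Stmt_TRE.{u} := p_TRE

theorem qz_SFI : Stmt_SFI.{u} := p_SFI

theorem qz_LXA : Stmt_LXA.{u} := p_LXA

theorem qz_FAR : Stmt_FAR.{u} := p_FAR

theorem qz_DD2 : Stmt_DD2.{u} := p_DD2 qz_FAR.{u}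

theorem qz_LXB : Stmt_LXB.{u} := p_LXB qz_DD2.{u}

theorem qz_LXC : Stmt_LXC.{u} := p_LXC qz_LXA.{u} qz_LXB.{u} qz_THH.{u}

theorem qz_BRA : Stmt_BRA.{u} := p_BRA qz_LXC.{u}

theorem qz_ROO : Stmt_ROO.{u} := p_ROO qz_LXC.{u}

theorem qz_NPU : Stmt_NPU.{u} := p_NPU

theorem qz_RD1 : Stmt_RD1.{u} := p_RD1 qz_NPU.{u} qz_DD2.{u}

theorem qz_SML : Stmt_SML.{u} := p_SML

theorem qz_TRP : Stmt_TRP.{u} := p_TRP

theorem qz_RD2 : Stmt_RD2.{u} := p_RD2 qz_RD1.{u} qz_SML.{u} qz_TRP.{u}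

theorem qz_MNM : Stmt_MNM.{u} := p_MNM qz_TRP.{u}

theorem qz_MNC : Stmt_MNC.{u} := p_MNC

theorem qz_KAP : Stmt_KAP.{u} := p_KAP qz_MNM.{u} qz_MNC.{u}

theorem qz_KEY : Stmt_KEY.{u} := p_KEY qz_RD2.{u} qz_KAP.{u}

theorem qz_CTF : Stmt_CTF.{u} := p_CTF

theorem qz_CNT : Stmt_CNT.{u} := p_CNT qz_CTF.{u}

theorem qz_THT : Stmt_THT.{u} := p_THT qz_DPC.{u} qz_TRE.{u} qz_SFI.{u} qz_BRA.{u} qz_ROO.{u} qz_KEY.{u} qz_CNT.{u}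

theorem qz_CB5 : Stmt_CB5.{u} := p_CB5 qz_CBA.{u} qz_SIG.{u} qz_THT.{u}

theorem qz_CB6 : Stmt_CB6.{u} := p_CB6 qz_THA.{u} qz_SLE.{u} qz_DER.{u} qz_DIN.{u} qz_CL2.{u} qz_NIS.{u} qz_CB5.{u}

end Pool.ZgCB

namespace Pool.ZgCB.KK

universe u

theorem qz_KLO : Stmt_KLO.{u} := p_KLO

theorem qz_KGE : Stmt_KGE.{u} := p_KGE

theorem qz_KMX : Stmt_KMX.{u} := p_KMX

theorem qz_KPL : Stmt_KPL.{u} := p_KPL qz_LMO.{u}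

theorem qz_KCH : Stmt_KCH.{u} := p_KCH qz_LMO.{u}

theorem qz_KFS : Stmt_KFS.{u} := p_KFS qz_FMP.{u} qz_FRE.{u} qz_KGE.{u} qz_FGP.{u} qz_PIA.{u} qz_EXT.{u}

theorem qz_KEX : Stmt_KEX.{u} := p_KEX

theorem qz_KAC : Stmt_KAC.{u} := p_KAC

theorem qz_KST : Stmt_KST.{u} := p_KST qz_KGE.{u} qz_FRE.{u} qz_KEX.{u} qz_KAC.{u}

theorem qz_KFC : Stmt_KFC.{u} := p_KFC

theorem qz_KE1 : Stmt_KE1.{u} := p_KE1 qz_EXT.{u}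

theorem qz_KE2 : Stmt_KE2.{u} := p_KE2 qz_KE1.{u}

theorem qz_KE3 : Stmt_KE3.{u} := p_KE3 qz_KE1.{u} qz_KE2.{u}

theorem qz_KRH : Stmt_KRH.{u} := p_KRH qz_EXT.{u}

theorem qz_KIN : Stmt_KIN.{u} := p_KIN qz_KFC.{u} qz_KE3.{u} qz_KRH.{u}

theorem qz_KFG : Stmt_KFG.{u} := p_KFG qz_KMX.{u} qz_KPL.{u} qz_KCH.{u} qz_KFS.{u} qz_KST.{u} qz_KIN.{u}

theorem qz_KFIN : Stmt_KFIN.{u} := p_KFIN qz_FAR.{u} qz_LMO.{u} qz_LIS.{u} qz_SLE.{u} qz_DER.{u} qz_MXF.{u} qz_THH.{u} qz_KLO.{u} qz_KGE.{u} qz_KFG.{u}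

end Pool.ZgCB.KK

namespace Pool.ZgCB

universe u

/-- THEOREM: the Ziegler spectrum of an artin algebra does not have Cantor-Bendixson rank one. -/
theorem not_CBRankOne (R : Type u) [Ring R] (C : Type u) [CommRing C] [IsArtinianRing C]
    [Algebra C R] [Module.Finite C R] : ¬ CBRankOne R := by
  intro h
  obtain ⟨h0, h1⟩ := qz_CB6.{u} R C h
  exact h0 (KK.qz_KFIN.{u} R C h1)

end Pool.ZgCB
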