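import Pool.Agent.Work.MP_d94bda_cb.InterfaceB

/-!
# MP_d94bda_al, interface part K: the Krull-Gabriel dimension of an artin algebra is not one

Elementary proof (no functor categories, no almost split sequences). Same conventions as in parts
A and B: block `X` is `Stmt_X`, prove `theorem p_X (hyp : Stmt_Y) ... : Stmt_X` in `X.lean`.

Main point of this file (KFG): if `1 ◁₁ 0` (`R1 topF botF`) then every point `G` with local
endomorphism ring, on which all pairs of finite length are closed, is finitely generated.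
-/

open scoped BigOperators

namespace Pool.ZgCB.KK
universe u

/-- the endomorphism ring of `N` is local -/
def Loc (R : Type u) [Ring R] (N : Type u) [AddCommGroup N] [Module R N] : Prop :=
  ∀ e : N →ₗ[R] N, Function.Bijective e ∨ Function.Bijective (LinearMap.id - e : N →ₗ[R] N)

/-- all pairs of finite length are closed on `N` -/
def Cl0 (R : Type u) [Ring R] (N : Type u) [AddCommGroup N] [Module R N] : Prop :=
  ∀ φ ψ : P1 R, R0 φ ψ → Cl N φ ψ

/-- `A` has a nonzero finitely generated direct summand -/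
def HasFG (R : Type u) [Ring R] (A : Type u) [AddCommGroup A] [Module R A] : Prop :=
  ∃ (W : Type u) (_ : AddCommGroup W) (_ : Module R W) (i : W →ₗ[R] A) (g : A →ₗ[R] W),
    Module.Finite R W ∧ Nontrivial W ∧ ∀ w, g (i w) = w

/-- the interval `[c, d]` is simple or zero modulo the intervals of finite length -/
def SStep {R : Type u} [Ring R] (c d : P1 R) : Prop :=
  Le c d ∧ ∀ χ, Le c χ → Le χ d → R0 χ c ∨ R0 d χ

/-- `P` is finitely generated over `C` modulo `Q` -/
def CFin (C R : Type u) [CommRing C] [Ring R] [Algebra C R] {G : Type u} [AddCommGroup G]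
    [Module R G] (P Q : G → Prop) : Prop :=
  ∃ (n : ℕ) (t : Fin n → G), (∀ i, P (t i)) ∧
    ∀ x, P x → ∃ c : Fin n → C, Q (x - ∑ i, algebraMap C R (c i) • t i)

/-! ### general lemmas -/

/-- KGE (100 lines). Generator formula: `γ(x)` says that `y ↦ x` extends to a homomorphism
`Y → A`. PROOF: `Y` has a finite presentation: `π : (Fin k → R) → Y` surjective
(`Module.Finite.exists_fin'`), its kernel is finitely generated (`IsNoetherian R (Fin k → R)`),
generators `w_1..w_m`. Choose `q i : Fin k → R` with `π (q i) = y i`. `γ(x)` is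
`∃ z_1..z_k, (∀ e, ∑_l w e l • z l = 0) ∧ (∀ i, x i - ∑_l q i l • z l = 0)`: write it with
`Dfn.ex`, `Dfn.and`, `Dfn.all`, `Dfn.lin` (`S = ⊤`), or with matrices (`PP.mk`,
`Fin m ⊕ ι ≃ Fin _`). If `f` exists take `z l = f (π (Pi.single l 1))`. Conversely the map
`(Fin k → R) → A`, `v ↦ ∑_l v l • z l`, kills the kernel (it kills the generators), so it factors
through `Y`. -/
def Stmt_KGE : Prop :=
  ∀ (R : Type u) [Ring R] [IsNoetherianRing R] (ι : Type) [Fintype ι] (Y : Type u)
    [AddCommGroup Y] [Module R Y] (y : ι → Y), Module.Finite R Y →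
    ∃ γ : PP R ι, ∀ (A : Type u) [AddCommGroup A] [Module R A] (x : ι → A),
      γ.ev A x ↔ ∃ f : Y →ₗ[R] A, ∀ i, f (y i) = x i

/-- KLO (60 lines). The endomorphism ring of a hull is local. PROOF: let `e : N → N`, `e' = id - e`,
`a = e a + e' a`. (1) If all formulas true at `e a` are in `p` then `e` is pure by `Rigid`, so by
`PureInj` there is `g : N → N` with `g ∘ e = id`; `e ∘ g` is idempotent; `e ∘ g = 0` would give
`g ∘ e ∘ g ∘ e = 0`, so `id = 0`, but `N` is nontrivial; so `e ∘ g = id` (`Indec`) and `e` is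
bijective. (2) The same for `e'`. (3) Otherwise there are `ω₁, ω₂ ∉ p` true at `e a`, `e' a`; `α ∈ p`
from `Irr`; `α` is true at `a`, so at `e a` and at `e' a` (`at1_map`), so
`joinF (α ∧ ω₁) (α ∧ ω₂)` is true at `a = e a + e' a`, so it is in `p`: contradiction. -/
def Stmt_KLO : Prop :=
  ∀ (R : Type u) [Ring R] (p : Set (P1 R)) (N : Type u) [AddCommGroup N] [Module R N] (a : N),
    Hull p N a → Irr p → Loc R N

/-- KMX (80 lines). A nonzero module over an artinian ring has a maximal submodule. PROOF: let `J` be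
the Jacobson radical of `R`: `R ⧸ J` is semisimple and `J` is nilpotent (`IsSemiprimaryRing`,
instance for artinian rings in `Mathlib/RingTheory/Artinian/Module.lean`). `J • ⊤ ≠ ⊤` in
`Submodule R M` (otherwise `J ^ n • ⊤ = ⊤` for all `n`, so `⊤ = ⊥`). `M ⧸ J • ⊤` is a nonzero
`R ⧸ J`-module, so semisimple as an `R`-module, so `Submodule R (M ⧸ J • ⊤)` is coatomic
(`Mathlib/RingTheory/SimpleModule/Basic.lean`); take the preimage (`Submodule.comap mkQ`) of a
coatom. (Other way: Hopkins-Levitzki style induction `IsSemiprimaryRing.induction`: every module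
`M` is zero or has a maximal submodule.) -/
def Stmt_KMX : Prop :=
  ∀ (R : Type u) [Ring R] [IsArtinianRing R] (M : Type u) [AddCommGroup M] [Module R M],
    Nontrivial M → ∃ N : Submodule R M, IsCoatom N

/-- KEX (60 lines). Extension of a map from a maximal submodule. PROOF: `N ⊔ R x₀ = ⊤`, so
`π : N × R → G`, `(v, s) ↦ v + s • x₀` is surjective. `κ : N × R → X`, `(v, s) ↦ θ v + s • x`,
kills the kernel of `π`: if `v + s x₀ = 0` then `s x₀ ∈ N`, so `s = ∑ t_j r_j`
(`Submodule.mem_span_range_iff_exists_fun`), `v = - ∑ t_j • (r_j x₀)`,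
`θ v = - ∑ t_j r_j x = - s x`. So `κ` factors through `G`
(`(LinearMap.quotKerEquivOfSurjective π _).symm`, `Submodule.liftQ`). -/
def Stmt_KEX : Prop :=
  ∀ (R : Type u) [Ring R] (G : Type u) [AddCommGroup G] [Module R G] (N : Submodule R G),
    IsCoatom N → ∀ (x₀ : G), x₀ ∉ N → ∀ (n : ℕ) (r : Fin n → R) (hr : ∀ j, r j • x₀ ∈ N),
    (∀ s : R, s • x₀ ∈ N → s ∈ Submodule.span R (Set.range r)) →
    ∀ (X : Type u) [AddCommGroup X] [Module R X] (θ : N →ₗ[R] X) (x : X),
      (∀ j, θ ⟨r j • x₀, hr j⟩ = r j • x) →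
      ∃ t : G →ₗ[R] X, (∀ v : N, t v = θ v) ∧ t x₀ = x

/-- KPL (60 lines, uses LMO). PROOF: `R1 topF botF` gives `m` with
`¬ Long R0 m (topF ∧ botF) topF`. Claim `PLen m G`. Let `θ_0, ..., θ_m` be a strict chain on `G`.
Put `η_0 = θ_0`, `η_{i+1} = joinF (η_i) (θ_{i+1})`: `Le (η_i) (η_{i+1})`, and on `G` `η_i` and
`θ_i` define the same subgroup (induction, `at1_join`, `at1_add`). So `η_{i+1}/η_i` is open on `G`, so
`¬ R0 (η_{i+1}) (η_i)` by `Cl0`, for `i < m`. By induction `Long R0 i botF (η_i)` (`c = η_i`,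
`d = η_{i+1}`), so `Long R0 m botF (η_m)`, and by LMO `Long R0 m (topF ∧ botF) topF`:
contradiction. -/
def Stmt_KPL : Prop :=
  ∀ (R : Type u) [Ring R] (G : Type u) [AddCommGroup G] [Module R G], Cl0 R G →
    R1 (topF : P1 R) botF → ∃ m, PLen (R := R) m G

/-- KAC (150 lines). Maximal condition for pp-definable subgroups of `G^k`. PROOF: for
`θ : PP R (Fin k)` and `j : Fin k` let `θ^j` be a formula in one variable with
`θ^j(v) ↔ ∃ x, θ(x) ∧ (∀ i < j, x i = 0) ∧ x j = v` (`Dfn.ex`, `Dfn.all`, `Dfn.and`, `Dfn.reidx`,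
`Dfn.lin`; only the subgroup of `G` matters). (A) If `θ(G) ⊆ θ'(G)` and `θ^j(G) = θ'^j(G)` for all
`j` then `θ(G) = θ'(G)`: show by induction on `j ≤ k` that for `x ∈ θ'(G)` there is `x' ∈ θ(G)` with
`x i = x' i` for `i < j` (step: `x - x' ∈ θ'(G)` has zero coordinates `< j`, so its coordinate `j` is
in `θ'^j(G) = θ^j(G)`, take `x''` and replace `x'` by `x' + x''`). (B) A chain
`θ_0(G) ⊆ θ_1(G) ⊆ ...` (of formulas in one variable) is constant from some index on:
otherwise there are `m` strict steps, against `PLen m` (choose a subsequence). So the same is true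
for formulas in `k` variables by (A) (maximum of the `k` indices). (C) If the claim fails for `F`
then for each `γ ∈ F` there is a strictly larger `γ' ∈ F`: dependent choice gives a chain against
(B). (Or use `wellFoundedGT_iff_monotone_chain_condition` for the type of pp-definable additive
subgroups of `Fin k → G`.) -/
def Stmt_KAC : Prop :=
  ∀ (R : Type u) [Ring R] (G : Type u) [AddCommGroup G] [Module R G],
    (∃ m, PLen (R := R) m G) → ∀ (k : ℕ) (F : Set (PP R (Fin k))), F.Nonempty →
    ∃ γ ∈ F, ∀ γ' ∈ F, (∀ x, γ.ev G x → γ'.ev G x) → ∀ x, γ'.ev G x → γ.ev G x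

/-- KCH (60 lines, uses LMO). Refinement of `[botF, topF]` into simple steps. PROOF: CLAIM by
induction on `n`, for all `b ≤ t`: `¬ Long R0 n b t` implies `ReflTransGen SStep b t`. `n = 0` is
impossible (`Long R0 0 b t` is `Le b t`). `n + 1`: if `SStep b t` then a single step. Otherwise there
is `χ`, `b ≤ χ ≤ t`, `¬ R0 χ b`, `¬ R0 t χ`. `¬ Long R0 n b χ` (otherwise `Long R0 (n+1) b t` with
`c = χ`, `d = t`) and `¬ Long R0 n χ t` (LMO, fifth item). Use transitivity. Apply it to
`b = botF`, `t = topF`: `R1 topF botF` gives `¬ Long R0 n (topF ∧ botF) topF`, so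
`¬ Long R0 n botF topF` (LMO, first item). -/
def Stmt_KCH : Prop :=
  ∀ (R : Type u) [Ring R], R1 (topF : P1 R) botF →
    Relation.ReflTransGen (SStep (R := R)) botF topF

/-! ### finitely generated summands -/

/-- KFS (180 lines, uses FMP, FRE, KGE, FGP, PIA, EXT). If a pair of finite length is open on `A` then
`A` has a nonzero finitely generated direct summand. PROOF: `R0 φ ψ` and `Opn A φ ψ` give
`Opn A φ (φ ∧ ψ)`, and by FMP (with `b = φ ∧ ψ`, `t = φ`) a minimal pair `c < d`, open on `A`:
`d(a)`, not `c(a)`. Free realization (FRE, `ι = Unit`): `Z` finitely generated, `z ∈ Z`, `d(z)`,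
`f : Z → A`, `f z = a`. `Z` is artinian and noetherian (`R` is a finite `C`-module). Consider the
submodules `Y` of `Z` such that there is `y ∈ Y` with `d(y)` in the module `Y` and not `c(f y)`; `Z` is
one. Let `Y` be a minimal one, with `y`. (*) If `α : Y → Y` is an endomorphism such that not
`c(f (α y))` then `α` is bijective: the submodule `α(Y)` (as a submodule of `Z`) is one of these
(`d(α y)` in `α(Y)` by `at1_map` for `Y → α(Y)`), so `α(Y) = Y`, surjective, so injective
(`IsNoetherian.injective_of_surjective_endomorphism`). Let `θ` be the generator formula of `(Y, y)`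
(KGE, `ι = Unit`). CLAIM: if `η` is true at `f y` then `η` is true at `y` in `Y`. Let
`χ = joinF (θ ∧ η) c`. `θ ≤ d`, so `c ≤ χ ≤ d`. Not `χ ≤ c`, because `(θ ∧ η)(f y)` and not
`c(f y)`. So `d ≤ χ` and in `Y`: `y = u + v`, `θ(u)`, `η(u)`, `c(v)`. `θ(u)` gives `α : Y → Y`,
`α y = u`. Not `c(f u)` (`f y = f u + f v`, `c(f v)`). By (*) `α` is bijective, and `η(y)` by
`at1_map` for `α⁻¹`. By the claim and EXT (`N = Y` is `AC` by FGP and PIA, `A = A`, `X = PUnit`,
families `f y` and `y`; a formula on a constant tuple is a formula in one variable by `Dfn.reidx`)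
there is `g : A → Y` with `g (f y) = y`. `ε = g ∘ f : Y → Y` satisfies `ε y = y`, so by (*) it is
bijective; `W = Y`, `i = f|Y`, retraction `ε⁻¹ ∘ g`. `Y` is nontrivial (`y ≠ 0`, not `c(f y)`). -/
def Stmt_KFS : Prop :=
  ∀ (R : Type u) [Ring R] (C : Type u) [CommRing C] [IsArtinianRing C] [Algebra C R]
    [Module.Finite C R] (A : Type u) [AddCommGroup A] [Module R A] (φ ψ : P1 R), R0 φ ψ →
    Opn A φ ψ → HasFG R A

/-- KST (250 lines, uses KGE, FRE, KEX, KAC). Below a maximal submodule there is a submodule `L` of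
`G`, with `G ⧸ L` finitely generated, without finitely generated direct summand. PROOF: `R` is
noetherian and artinian (finite over `C`). Fix `x₀ ∉ N`; the left ideal `I = {s | s • x₀ ∈ N}` is
`span (r_1..r_n)`. Put `ζ j = ⟨r j • x₀, _⟩ : N`. Let `𝓔` be the set of idempotent endomorphisms
`e : N → N` with `Module.Finite R (range e)`; `0 ∈ 𝓔`. For `e ∈ 𝓔` let `ω_e : PP R (Fin n)` be the
generator formula (KGE) of the module `range e × R` with the tuple `(e (ζ j), r j)`: `ω_e(v)` in a
module `M` iff there are `f : range e → M` and `x : M` with `v j = f (e (ζ j)) + r j • x` (a linear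
map on `range e × R` is `(w, s) ↦ f w + s • x`). By KAC choose `e ∈ 𝓔` with `ω_e(G)` maximal. Let
`L = (ker e).map N.subtype`. `L ≤ N`, and `G ⧸ L` is finitely generated (an extension of `G ⧸ N`,
simple, by `N ⧸ ker e ≃ range e`; or: `G = N + R x₀`, `N = range e + ker e`, so `⊤` is the span of
`x₀`, finitely many elements of `range e`, and `L`). Suppose `HasFG R L`: then there are `W`
nonzero finitely generated, `i : W → ker e`, `g : ker e → W`, `g ∘ i = id`. Define
`e' : N → N`, `e' v = i (g (v - e v))`: idempotent, `e ∘ e' = 0`, `e' ∘ e = 0`, `range e' = i(W)` is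
finitely generated, `e' ≠ 0`; `e + e' ∈ 𝓔`. (1) `ω_e(G) ⊆ ω_{e+e'}(G)` (compose `f` with
`e : range (e + e') → range e`), so by maximality `ω_{e+e'}(G) ⊆ ω_e(G)`. Let `γ` be the generator
formula of `(range e', (e' (ζ j))_j)`: `γ(G) ⊆ ω_{e+e'}(G)` (compose with `e'`, `x = 0`), so
`γ(G) ⊆ ω_e(G)`. (2) Let `δ = γ ∧ ω_e` (`PP.meet`), with free realization `X`, `ξ : Fin n → X` (FRE).
In `X`: `h : range e' → X` with `h (e' (ζ j)) = ξ j`, and `f : range e → X`, `x : X` with
`ξ j = f (e (ζ j)) + r j • x`. Let `θ : N → X`, `θ v = h (e' v) - f (e v)`: `θ (ζ j) = r j • x`. By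
KEX `θ` extends to `t : G → X`. Let `z j = (e' (ζ j) : G)`. `t (z j) = θ (e' (ζ j)) =
h (e' (ζ j)) - f (e (e' (ζ j))) = ξ j`. `γ(z)` in `G` (inclusion of `range e'`), so `ω_e(z)`, `δ(z)`, so
there is `k : X → G` with `k (ξ j) = z j`. So `(k ∘ t) (z j) = z j`. If `k ∘ t` were bijective then
`t` is injective, `G` embeds in the finitely generated module `X`, so `G` is finitely generated:
contradiction. By `Loc` `id - k ∘ t` is bijective, so injective, and `z j = 0` for all `j`. (3) So
`e' (ζ j) = 0 = r j • 0`, and by KEX `N.subtype ∘ e' : N → G` extends to `ê : G → G` with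
`ê x₀ = 0`. `ê(G) ⊆ e'(N)` (`G = N + R x₀`) and `ê = e'` on `N`, so `ê` is idempotent. By `Indec`
`ê = id` (impossible, the range of `ê` is in `N ≠ ⊤`) or `ê = 0`, so `e' = 0`: contradiction. -/
def Stmt_KST : Prop :=
  ∀ (R : Type u) [Ring R] (C : Type u) [CommRing C] [IsArtinianRing C] [Algebra C R]
    [Module.Finite C R] (G : Type u) [AddCommGroup G] [Module R G], Indec R G → Loc R G →
    ¬ Module.Finite R G → (∃ m, PLen (R := R) m G) → ∀ N : Submodule R G, IsCoatom N →
    ∃ L : Submodule R G, L ≤ N ∧ Module.Finite R (G ⧸ L) ∧ ¬ HasFG R L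

/-! ### the linear structure of a simple step on a point -/

/-- KFC (120 lines). If `G ⧸ L` is finitely generated then `φ(G)/φ(L)` is finitely generated over
`C`. PROOF: `φ = (m, k, A, B)`. Let `U ⊆ G × (Fin k → G)` be the set of `(x, y)` with
`∀ i, A i () • x + ∑_l B i l • y l = 0`, a `C`-submodule (`C` acts through `algebraMap C R`,
`Module.compHom`; the values are central, `Algebra.commutes`). The image of `U` in
`(G ⧸ L) × (Fin k → G ⧸ L)` is a `C`-submodule of a finite `C`-module (`G ⧸ L` is finite over `R`,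
so over `C`), so it is generated by the images of finitely many `(x_i, y_i) ∈ U`. For `(x, y) ∈ U`
there are `c_i` such that `(x, y) - ∑ c_i (x_i, y_i)` is in `U` and has all coordinates in `L`: so
`φ` holds at the element `x - ∑ c_i x_i` of `L`. `t_i = x_i`. -/
def Stmt_KFC : Prop :=
  ∀ (R : Type u) [Ring R] (C : Type u) [CommRing C] [IsArtinianRing C] [Algebra C R]
    [Module.Finite C R] (G : Type u) [AddCommGroup G] [Module R G] (L : Submodule R G),
    Module.Finite R (G ⧸ L) → ∀ φ : P1 R,
    CFin C R (fun x : G => at1 φ x) (fun x : G => ∃ y : L, (y : G) = x ∧ at1 φ y)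

/-- KE1 (100 lines, uses EXT). Transitivity on a simple step. PROOF: CLAIM: if `θ` is true at `a`
then there is `u` with `θ(u)` and `c(b - u)`. Let `χ = joinF (d ∧ θ) c`; `c ≤ χ ≤ d`. Not `R0 χ c`
(otherwise `Cl G χ c` and `c(a)`, because `(d ∧ θ)(a)`). So `R0 d χ`, `Cl G d χ`, `χ(b)`:
`b = u + v`, `θ(u)`, `c(v)`. By `AC G` with the unknown `X = PUnit` and the conditions `θ(x)` for
all `θ` true at `a` and `c(b - x)` (formula in `Fin 2`, one unknown and the constant `b`), finitely
satisfiable (take the meet of finitely many `θ`), there is `u` with `c(b - u)` and `θ(u)` for all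
`θ` true at `a`. EXT (`A = N = G`, `X = PUnit`, families `a` and `u`): `e : G → G`, `e a = u`. So
`c(e a - b)`. -/
def Stmt_KE1 : Prop :=
  ∀ (R : Type u) [Ring R] (G : Type u) [AddCommGroup G] [Module R G], AC R G → Cl0 R G →
    ∀ c d : P1 R, SStep c d → ∀ a b : G, at1 d a → ¬ at1 c a → at1 d b →
    ∃ e : G →ₗ[R] G, at1 c (e a - b)

/-- KE2 (70 lines, uses KE1). Endomorphisms which are not bijective kill a simple step. PROOF:
suppose `e` is not bijective, `d(a)`, not `c(e a)`. `d(e a)`, so by KE1 there is `e'` with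
`c(e' (e a) - a)`. `ε = id - e' ∘ e` satisfies `c(ε a)`. If `ε` were bijective then by `at1_map`
for its inverse `c(a)`, so `c(e a)`: contradiction. So by `Loc` `id - ε = e' ∘ e` is bijective;
`g = (e' ∘ e)⁻¹ ∘ e'`, `g ∘ e = id`. `π = e ∘ g` is idempotent. By `Loc` `π` is bijective, and then
`π = id` and `e` is bijective, contradiction; or `id - π` is bijective and idempotent, so `π = 0`,
`id = g ∘ e ∘ g ∘ e = 0`, `a = 0`, `c(e a)`: contradiction. -/
def Stmt_KE2 : Prop :=
  ∀ (R : Type u) [Ring R] (G : Type u) [AddCommGroup G] [Module R G], AC R G → Cl0 R G →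
    Loc R G → ∀ c d : P1 R, SStep c d → ∀ e : G →ₗ[R] G, ¬ Function.Bijective e →
    ∀ a : G, at1 d a → at1 c (e a)

/-- KE3 (150 lines, uses KE1, KE2). PROOF: let `t_1..t_n` be the generators of `d(G)` modulo `c(G)`
over `C`, and `a` with `d(a)`, not `c(a)`. KE1: `e_i` with `c(e_i a - t_i)`. (1) For every
`e : G → G` there are `c_i ∈ C` such that `ε = e - ∑ c_i e_i` is not bijective (`c_i e_i` is the
linear map `x ↦ algebraMap C R c_i • e_i x`): `d(e a)`, choose `c_i` with
`c(e a - ∑ c_i t_i)`; then `c(ε a)` (`at1_central`, `at1_sum`, `at1_sub`), and if `ε` were bijective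
then `c(a)`. (2) By induction along the chain (`Relation.ReflTransGen`, from `botF`): for every
`t` with `ReflTransGen SStep botF t`, `CFin C R (at1 t) (· = 0)`. For `botF`: `n = 0`
(`at1_bot`). Step `SStep c' d'`, `s_1..s_m` the generators for `c'`. If `Cl G d' c'` the same
generators work (`Le c' d'`). Otherwise take `b` with `d'(b)`, not `c'(b)`; the generators are
`e_i b` and `s_j`. For `x` with `d'(x)` KE1 gives `e` with `c'(e b - x)`; by (1)
`ε = e - ∑ c_i e_i` is not bijective, so `c'(ε b)` by KE2, so `c'(x - ∑ c_i e_i b)`, a combination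
of the `s_j`. (3) For `t = topF`: `G` is generated by finitely many elements over `C`, so over
`R`. -/
def Stmt_KE3 : Prop :=
  ∀ (R : Type u) [Ring R] (C : Type u) [CommRing C] [IsArtinianRing C] [Algebra C R]
    [Module.Finite C R] (G : Type u) [AddCommGroup G] [Module R G], AC R G → Cl0 R G →
    Loc R G → Relation.ReflTransGen (SStep (R := R)) botF topF →
    ∀ c d : P1 R, SStep c d → Opn G d c →
    CFin C R (fun x : G => at1 d x) (fun x : G => at1 c x) → Module.Finite R G

/-- KRH (150 lines, uses EXT). PROOF: suppose there is no such `ρ`. CLAIM: for every `ρ` with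
`ρ(a; b)` there are `x`, `y` with `c(x - b)`, `c(y)`, `ρ(y; x)`. By assumption there are `w`, `s`
with `d(w)`, `c(s)`, `ρ(w; s)`, not `c(w)`. Let `χ = joinF c (d ∧ exr ρ c)`; `c ≤ χ ≤ d`. `χ(w)` and
not `c(w)`, so not `Cl G χ c`, not `R0 χ c`, so `R0 d χ`, `Cl G d χ`, `χ(a)`: `a = s₁ + v`, `c(s₁)`,
`d(v)`, `ρ(v; s₂)`, `c(s₂)`. By `at2_sub` `ρ(a - v; b - s₂)`; `y = a - v = s₁`, `x = b - s₂`.
`AC G` with two unknowns (`x`, `y`; `X = ULift Bool` or similar) and the conditions `ρ(y; x)` for
all `ρ` true at `(a; b)`, `c(x - b)`, `c(y)` (finitely satisfiable: meet of finitely many `ρ`) gives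
`x`, `y` in `G`. EXT (`A = N = G`, `X = ULift Bool`, families `(a, b)` and `(y, x)`; a formula on a
tuple with repetitions is a formula in two variables by `Dfn.reidx`): `e : G → G`, `e a = y`,
`e b = x`. If `e` is bijective then `c(e a)` gives `c(a)`: contradiction. So by `Loc` `id - e` is
bijective, and `c((id - e) b)` gives `c(b)`: contradiction. -/
def Stmt_KRH : Prop :=
  ∀ (R : Type u) [Ring R] (G : Type u) [AddCommGroup G] [Module R G], AC R G → Cl0 R G →
    Loc R G → ∀ c d : P1 R, SStep c d → ∀ a b : G, at1 d a → ¬ at1 c a → at1 d b → ¬ at1 c b →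
    ∃ ρ : P2 R, at2 ρ a b ∧ ∀ w s : G, at1 d w → at1 c s → at2 ρ w s → at1 c w

/-- KIN (120 lines, uses KFC, KE3, KRH). The inductive step: `d(G) = d(L)`. PROOF: let `d(a)` in
`G`. If `c(a)` use the hypothesis and `Le c d`. Suppose not `c(a)`. (1) There is `b : L` with
`d(b)` in `L` and not `c((b : G))`: otherwise KFC for `φ = d` gives
`CFin C R (at1 d) (at1 c)` and KE3 says that `G` is finitely generated. (2) KRH for `a` and
`(b : G)`: `ρ`. Let `π` be a formula with `π(u) ↔ d(u) ∧ ∃ v, d(v) ∧ ρ(v; u)` (`Dfn`), and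
`χ = joinF c π`; `c ≤ χ ≤ d`. `χ((b : G))` (take `v = a`) and not `c((b : G))`, so not `R0 χ c`
(`Cl0 R G`), so `R0 d χ`, so `Cl L d χ` (`Cl0 R L`): in `L` `b = s + u`, `c(s)`, `d(u)`, `d(v)`,
`ρ(v; u)` with `v : L`. In `G` (`at1_map`, `at2_map` for the inclusion): `ρ(a - v; b - u)`,
`b - u = s`, `c(s)`, `d(a - v)`, so `c(a - v)` by the property of `ρ`. By the hypothesis there is
`y : L` with `(y : G) = a - v`, `c(y)`. `a = v + y`, and `d(v + y)` in `L`. -/
def Stmt_KIN : Prop :=
  ∀ (R : Type u) [Ring R] (C : Type u) [CommRing C] [IsArtinianRing C] [Algebra C R]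
    [Module.Finite C R] (G : Type u) [AddCommGroup G] [Module R G], AC R G → Cl0 R G →
    Loc R G → ¬ Module.Finite R G → Relation.ReflTransGen (SStep (R := R)) botF topF →
    ∀ L : Submodule R G, Module.Finite R (G ⧸ L) → Cl0 R L → ∀ c d : P1 R, SStep c d →
    (∀ a : G, at1 c a → ∃ y : L, (y : G) = a ∧ at1 c y) →
    ∀ a : G, at1 d a → ∃ y : L, (y : G) = a ∧ at1 d y

/-- KFG (80 lines, uses KMX, KPL, KCH, KFS, KST, KIN). PROOF: suppose `G` is not finitely
generated. `R` is artinian; KMX: a maximal submodule `N` of `G` (`G` is nontrivial). KPL, KST: `L`.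
`Cl0 R L`: if `R0 φ ψ` and not `Cl L φ ψ` then `Opn L φ ψ` and `HasFG R L` by KFS. KCH: the chain. By
induction along the chain with KIN: for every `t` with `ReflTransGen SStep botF t` and `a : G` with
`t(a)` there is `y : L` with `(y : G) = a` and `t(y)` (for `botF`: `a = 0`). For `t = topF`: every
`a : G` is in `L`, so `L = ⊤`, `N = ⊤`: contradiction. -/
def Stmt_KFG : Prop :=
  ∀ (R : Type u) [Ring R] (C : Type u) [CommRing C] [IsArtinianRing C] [Algebra C R]
    [Module.Finite C R], R1 (topF : P1 R) botF →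
    ∀ (G : Type u) [AddCommGroup G] [Module R G], Point R G → AC R G → Loc R G → Cl0 R G →
      Module.Finite R G

end Pool.ZgCB.KK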